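import Pool.Agent.H343R2.PV

set_option autoImplicit false

/-! The Jacobi symbol as a Dirichlet character and its partial sums. -/

namespace Pool.Agent.H379R2.W

open Finset

/-- the Jacobi symbol modulo `M` as a Dirichlet character -/
noncomputable def jchar (M : ℕ) [NeZero M] : DirichletCharacter ℂ M where
  toFun a := ((jacobiSym (a.val : ℤ) M : ℤ) : ℂ)
  map_one' := by
    have h : ((1 : ZMod M).val : ℤ) = (1 % M : ℕ) := by
      rw [ZMod.val_one_eq_one_mod]
    rw [h]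
    push_cast
    rw [← jacobiSym.mod_left, jacobiSym.one_left]
    norm_num
  map_mul' a b := by
    rw [ZMod.val_mul]
    push_cast
    rw [← jacobiSym.mod_left, jacobiSym.mul_left]
    push_cast
    rfl
  map_nonunit' a ha := by
    have h1 : jacobiSym (a.val : ℤ) M = 0 := by
      rw [jacobiSym.eq_zero_iff_not_coprime]
      intro h
      apply ha
      have h2 : Nat.Coprime a.val M := by
        rw [Nat.Coprime]
        have := h
        rwa [Int.gcd_natCast_natCast] at this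
      have h3 := (ZMod.isUnit_iff_coprime a.val M).mpr h2
      rwa [ZMod.natCast_zmod_val] at h3
    rw [h1]
    norm_num

lemma jchar_apply (M : ℕ) [NeZero M] (n : ℕ) :
    jchar M (n : ZMod M) = ((jacobiSym (n : ℤ) M : ℤ) : ℂ) := by
  have : jchar M (n : ZMod M) = ((jacobiSym (((n : ZMod M).val : ℕ) : ℤ) M : ℤ) : ℂ) := rfl
  rw [this, ZMod.val_natCast]
  push_cast
  rw [← jacobiSym.mod_left]

lemma jacobi_natAbs_le (a : ℤ) (M : ℕ) : |jacobiSym a M| ≤ 1 := by
  rcases jacobiSym.trichotomy a M with h | h | h <;> rw [h] <;> norm_num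

/-- Pólya-Vinogradov for the Jacobi symbol -/
lemma jacobi_sum_le (M : ℕ) (hM : 1 ≤ M) (hne : ∃ a : ℕ, jacobiSym (a : ℤ) M = -1) (N : ℕ) :
    |((∑ n ∈ Icc 1 N, jacobiSym (n : ℤ) M : ℤ) : ℝ)| ≤
      M.divisors.card * (2 * Real.sqrt M * (1 + Real.log M)) := by
  have hNZ : NeZero M := ⟨by omega⟩
  obtain ⟨χ, hχ⟩ : ∃ χ : DirichletCharacter ℂ M, χ = jchar M := ⟨_, rfl⟩
  have hχ1 : χ ≠ 1 := by
    intro h
    obtain ⟨a, ha⟩ := hne
    have h1 := jchar_apply M a
    rw [← hχ, h, ha] at h1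
    have h2 : IsUnit (a : ZMod M) := by
      rw [ZMod.isUnit_iff_coprime]
      by_contra hc
      have : jacobiSym (a : ℤ) M = 0 := by
        rw [jacobiSym.eq_zero_iff_not_coprime, Int.gcd_natCast_natCast]
        exact hc
      rw [this] at ha
      norm_num at ha
    rw [MulChar.one_apply h2] at h1
    norm_num at h1
  have hc1 : χ.conductor ≠ 1 := fun h => hχ1 ((χ.eq_one_iff_conductor_eq_one).mpr h)
  have hc0 : χ.conductor ≠ 0 := χ.conductor_ne_zero
  have hcd := χ.conductor_dvd_level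
  have hcM : χ.conductor ≤ M := Nat.le_of_dvd hM hcd
  have h1 := H343.PV χ.conductor M N (by omega) hM χ.primitiveCharacter
    χ.primitiveCharacter_isPrimitive
  have h2 : ∑ a ∈ (Icc 1 N).filter (fun a => a.Coprime M),
      χ.primitiveCharacter (a : ZMod χ.conductor) =
      ((∑ n ∈ Icc 1 N, jacobiSym (n : ℤ) M : ℤ) : ℂ) := by
    rw [sum_filter]
    push_cast
    apply sum_congr rfl
    intro a _
    split_ifs with hco
    · have h3 : IsCoprime (a : ℤ) (M : ℤ) := Nat.isCoprime_iff_coprime.mpr hco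
      have h4 := χ.primitiveCharacter_apply_of_isCoprime h3
      push_cast at h4
      rw [h4, hχ, jchar_apply]
    · have : jacobiSym (a : ℤ) M = 0 := by
        rw [jacobiSym.eq_zero_iff_not_coprime, Int.gcd_natCast_natCast]
        exact hco
      rw [this]
      norm_num
  rw [h2] at h1
  rw [Complex.norm_intCast] at h1
  push_cast at h1 ⊢
  refine h1.trans ?_
  have hc1' : (1 : ℝ) ≤ χ.conductor := by exact_mod_cast (by omega : 1 ≤ χ.conductor)
  have hcM' : (χ.conductor : ℝ) ≤ M := by exact_mod_cast hcM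
  have h5 : Real.sqrt χ.conductor ≤ Real.sqrt M := Real.sqrt_le_sqrt hcM'
  have h6 : Real.log χ.conductor ≤ Real.log M := Real.log_le_log (by linarith) hcM'
  have h7 : 0 ≤ Real.log χ.conductor := Real.log_nonneg hc1'
  gcongr

/-- the product of two different odd squarefree numbers has a nontrivial Jacobi symbol -/
lemma exists_neg_one {s s' : ℕ} (hs : Squarefree s) (hs' : Squarefree s') (ho : Odd s)
    (ho' : Odd s') (hne : s ≠ s') : ∃ a : ℕ, jacobiSym (a : ℤ) (s * s') = -1 := by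
  -- a prime dividing exactly one of them
  wlog hex : ∃ ℓ : ℕ, ℓ.Prime ∧ ℓ ∣ s ∧ ¬ ℓ ∣ s' generalizing s s' with H
  · have h1 : s.primeFactors ⊆ s'.primeFactors := by
      intro ℓ hℓ
      rw [Nat.mem_primeFactors] at hℓ ⊢
      refine ⟨hℓ.1, ?_, hs'.ne_zero⟩
      by_contra hc
      exact hex ⟨ℓ, hℓ.1, hℓ.2.1, hc⟩
    have hex' : ∃ ℓ : ℕ, ℓ.Prime ∧ ℓ ∣ s' ∧ ¬ ℓ ∣ s := by
      by_contra hc
      push Not at hc
      apply hne
      rw [← Nat.prod_primeFactors_of_squarefree hs, ← Nat.prod_primeFactors_of_squarefree hs']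
      congr 1
      apply Subset.antisymm h1
      intro ℓ hℓ
      rw [Nat.mem_primeFactors] at hℓ ⊢
      exact ⟨hℓ.1, hc ℓ hℓ.1 hℓ.2.1, hs.ne_zero⟩
    obtain ⟨a, ha⟩ := H hs' hs ho' ho hne.symm hex'
    exact ⟨a, by rw [mul_comm]; exact ha⟩
  obtain ⟨ℓ, hℓ, hℓs, hℓs'⟩ := hex
  obtain ⟨r, hr⟩ := hℓs
  have hℓ2 : ℓ ≠ 2 := by
    intro h
    rw [h] at hr
    rw [hr] at ho
    exact absurd ho (by simp)
  have hFact := Fact.mk hℓ
  have hℓr : ¬ ℓ ∣ r := by
    intro h
    have h2 : ℓ * ℓ ∣ s := by rw [hr]; exact Nat.mul_dvd_mul_left ℓ h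
    have := hs ℓ h2
    exact hℓ.one_lt.ne' (Nat.isUnit_iff.mp this)
  have hco : Nat.Coprime ℓ (r * s') :=
    Nat.Coprime.mul_right ((Nat.Prime.coprime_iff_not_dvd hℓ).mpr hℓr)
      ((Nat.Prime.coprime_iff_not_dvd hℓ).mpr hℓs')
  -- a nonresidue
  obtain ⟨c, hc⟩ : ∃ c : ZMod ℓ, quadraticChar (ZMod ℓ) c = -1 := by
    apply quadraticChar_exists_neg_one
    rw [ZMod.ringChar_zmod_n]
    exact hℓ2
  obtain ⟨a, ha1, ha2⟩ := Nat.chineseRemainder hco c.val 1
  refine ⟨a, ?_⟩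
  have hr0 : r ≠ 0 := by
    intro h; rw [h, mul_zero] at hr; exact hs.ne_zero hr
  have : NeZero ℓ := ⟨hℓ.ne_zero⟩
  have : NeZero (r * s') := ⟨mul_ne_zero hr0 hs'.ne_zero⟩
  rw [hr, mul_assoc, jacobiSym.mul_right]
  have e1 : jacobiSym (a : ℤ) ℓ = -1 := by
    rw [← jacobiSym.legendreSym.to_jacobiSym, legendreSym]
    push_cast
    have : (a : ZMod ℓ) = c := by
      have h3 := (ZMod.natCast_eq_natCast_iff a c.val ℓ).mpr ha1
      rw [h3, ZMod.natCast_zmod_val]
    rw [this]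
    exact hc
  have e2 : jacobiSym (a : ℤ) (r * s') = 1 := by
    rw [jacobiSym.mod_left]
    have h3 : (a : ℤ) % ((r * s' : ℕ) : ℤ) = (1 : ℤ) % ((r * s' : ℕ) : ℤ) := by
      exact_mod_cast ha2
    rw [h3, ← jacobiSym.mod_left, jacobiSym.one_left]
  rw [e1, e2]
  norm_num

end Pool.Agent.H379R2.W
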