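import Pool.Agent.H379R2.W.JChar
import Pool.Agent.H379R2.W.Smooth

set_option autoImplicit false

/-! Primes with prescribed Legendre symbols at the small primes. -/

namespace Pool.Agent.H379R2.W

open Finset Real

lemma class_core (C S : Finset ℕ) (P : ℕ) (hC : ∀ q ∈ C, 1 ≤ q ∧ q ≤ P) (f : ℕ → ℤ)
    (hf : ∀ s ∈ S, |f s| ≤ 1) (hpos : ∀ s ∈ S, s ≠ 0) (h : ∀ q ∈ C, ∀ s ∈ S, f s * jacobiSym (q : ℤ) s = 1)
    (R : ℝ) (hR0 : 0 ≤ R) (hR : ∀ s ∈ S, ∀ s' ∈ S, s ≠ s' →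
      |((∑ n ∈ Icc 1 P, jacobiSym (n : ℤ) (s * s') : ℤ) : ℝ)| ≤ R) :
    (C.card : ℝ) * (S.card : ℝ) ^ 2 ≤ S.card * P + (S.card : ℝ) ^ 2 * R := by
  have h1 : ∀ n ∈ C, (∑ s ∈ S, (f s : ℝ) * (jacobiSym (n : ℤ) s : ℝ)) = S.card := by
    intro n hn
    have : ∀ s ∈ S, (f s : ℝ) * (jacobiSym (n : ℤ) s : ℝ) = 1 := by
      intro s hs
      exact_mod_cast h n hn s hs
    rw [sum_congr rfl this, sum_const, nsmul_eq_mul, mul_one]
  have h2 : (C.card : ℝ) * (S.card : ℝ) ^ 2 =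
      ∑ n ∈ C, (∑ s ∈ S, (f s : ℝ) * (jacobiSym (n : ℤ) s : ℝ)) ^ 2 := by
    rw [sum_congr rfl fun n hn => by rw [h1 n hn], sum_const, nsmul_eq_mul]
  have h3 : ∑ n ∈ C, (∑ s ∈ S, (f s : ℝ) * (jacobiSym (n : ℤ) s : ℝ)) ^ 2 ≤
      ∑ n ∈ Icc 1 P, (∑ s ∈ S, (f s : ℝ) * (jacobiSym (n : ℤ) s : ℝ)) ^ 2 := by
    apply sum_le_sum_of_subset_of_nonneg
    · intro n hn
      rw [mem_Icc]; exact hC n hn
    · intro n _ _; positivity
  have h4 : ∑ n ∈ Icc 1 P, (∑ s ∈ S, (f s : ℝ) * (jacobiSym (n : ℤ) s : ℝ)) ^ 2 =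
      ∑ s ∈ S, ∑ s' ∈ S, (f s : ℝ) * (f s' : ℝ) *
        ((∑ n ∈ Icc 1 P, jacobiSym (n : ℤ) (s * s') : ℤ) : ℝ) := by
    have e1 : ∀ n ∈ Icc 1 P, (∑ s ∈ S, (f s : ℝ) * (jacobiSym (n : ℤ) s : ℝ)) ^ 2 =
        ∑ s ∈ S, ∑ s' ∈ S, (f s : ℝ) * (f s' : ℝ) * (jacobiSym (n : ℤ) (s * s') : ℝ) := by
      intro n _
      rw [sq, sum_mul_sum]
      apply sum_congr rfl
      intro s hs
      apply sum_congr rfl
      intro s' hs'
      have : NeZero s := ⟨hpos s hs⟩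
      have : NeZero s' := ⟨hpos s' hs'⟩
      rw [jacobiSym.mul_right]
      push_cast
      ring
    rw [sum_congr rfl e1, sum_comm]
    apply sum_congr rfl
    intro s _
    rw [sum_comm]
    apply sum_congr rfl
    intro s' _
    push_cast
    rw [mul_sum]
  have h5 : ∑ s ∈ S, ∑ s' ∈ S, (f s : ℝ) * (f s' : ℝ) *
        ((∑ n ∈ Icc 1 P, jacobiSym (n : ℤ) (s * s') : ℤ) : ℝ) ≤
      ∑ s ∈ S, ∑ s' ∈ S, ((if s = s' then (P : ℝ) else 0) + R) := by
    apply sum_le_sum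
    intro s hs
    apply sum_le_sum
    intro s' hs'
    have hff : |(f s : ℝ) * (f s' : ℝ)| ≤ 1 := by
      rw [abs_mul]
      have a1 : |(f s : ℝ)| ≤ 1 := by exact_mod_cast hf s hs
      have a2 : |(f s' : ℝ)| ≤ 1 := by exact_mod_cast hf s' hs'
      exact mul_le_one₀ a1 (abs_nonneg _) a2
    have e2 : (f s : ℝ) * (f s' : ℝ) *
        ((∑ n ∈ Icc 1 P, jacobiSym (n : ℤ) (s * s') : ℤ) : ℝ) ≤
        |((∑ n ∈ Icc 1 P, jacobiSym (n : ℤ) (s * s') : ℤ) : ℝ)| := by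
      refine (le_abs_self _).trans ?_
      rw [abs_mul]
      exact mul_le_of_le_one_left (abs_nonneg _) hff
    refine e2.trans ?_
    split_ifs with heq
    · have e3 : |((∑ n ∈ Icc 1 P, jacobiSym (n : ℤ) (s * s') : ℤ) : ℝ)| ≤ P := by
        push_cast
        refine (abs_sum_le_sum_abs _ _).trans ?_
        have : ∀ n ∈ Icc 1 P, |((jacobiSym (n : ℤ) (s * s') : ℤ) : ℝ)| ≤ 1 := by
          intro n _
          exact_mod_cast jacobi_natAbs_le (n : ℤ) (s * s')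
        refine (sum_le_sum this).trans ?_
        rw [sum_const, Nat.card_Icc, nsmul_eq_mul]
        simp
      linarith
    · rw [zero_add]; exact hR s hs s' hs' heq
  have h6 : ∑ s ∈ S, ∑ s' ∈ S, ((if s = s' then (P : ℝ) else 0) + R) =
      S.card * P + (S.card : ℝ) ^ 2 * R := by
    have e1 : ∀ s ∈ S, ∑ s' ∈ S, ((if s = s' then (P : ℝ) else 0) + R) = P + S.card * R := by
      intro s hs
      rw [sum_add_distrib, sum_ite_eq, if_pos hs, sum_const, nsmul_eq_mul]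
    rw [sum_congr rfl e1, sum_const, nsmul_eq_mul]
    ring
  linarith

lemma jacobi_prod (a : ℤ) (T : Finset ℕ) (hT : ∀ x ∈ T, x ≠ 0) :
    jacobiSym a (∏ x ∈ T, x) = ∏ x ∈ T, jacobiSym a x := by
  induction T using Finset.induction_on with
  | empty => simp
  | insert x T hx ih =>
    rw [prod_insert hx, prod_insert hx]
    have : NeZero x := ⟨hT x (mem_insert_self x T)⟩
    have h2 : ∀ z ∈ T, z ≠ 0 := fun z hz => hT z (mem_insert_of_mem hz)
    have : NeZero (∏ x ∈ T, x) := ⟨prod_ne_zero_iff.mpr h2⟩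
    rw [jacobiSym.mul_right, ih h2]

lemma card_div_mul_le (a b : ℕ) : (a * b).divisors.card ≤ a.divisors.card * b.divisors.card := by
  rw [Nat.divisors_mul]
  exact card_mul_le

lemma card_div_prod (T : Finset ℕ) (hT : ∀ x ∈ T, x.Prime) :
    (∏ x ∈ T, x).divisors.card ≤ 2 ^ T.card := by
  induction T using Finset.induction_on with
  | empty => simp
  | insert x T hx ih =>
    rw [prod_insert hx, card_insert_of_notMem hx, pow_succ, mul_comm (2 ^ _)]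
    refine (card_div_mul_le _ _).trans ?_
    apply Nat.mul_le_mul
    · rw [(hT x (mem_insert_self x T)).divisors, card_pair (hT x (mem_insert_self x T)).one_lt.ne]
    · exact ih fun z hz => hT z (mem_insert_of_mem hz)

end Pool.Agent.H379R2.W
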