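import Pool.Agent.H379R2.W.ClassBound

set_option autoImplicit false

/-! Primes with prescribed Legendre symbols at the small primes: the bound `P^(2/3+ε)`. -/

namespace Pool.Agent.H379R2.W

open Finset Real

/-- odd primes up to `y` -/
def opr (y : ℕ) : Finset ℕ := (pr y).erase 2

lemma mem_opr {y p : ℕ} : p ∈ opr y ↔ p.Prime ∧ p ≤ y ∧ p ≠ 2 := by
  rw [opr, mem_erase, mem_pr]; tauto

lemma card_opr {y : ℕ} (hy : 2 ≤ y) : ((opr y).card : ℝ) = Nat.primeCounting y - 1 := by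
  have h2 : 2 ∈ pr y := mem_pr.mpr ⟨Nat.prime_two, hy⟩
  rw [opr, card_erase_of_mem h2, card_pr, Nat.cast_sub, Nat.cast_one]
  rw [← card_pr]
  exact Finset.card_pos.mpr ⟨2, h2⟩

/-- one residue class mod 4, general parameters -/
lemma class_param (C : Finset ℕ) (P y u r : ℕ) (g : ℕ → ℤ)
    (hC : ∀ q ∈ C, q.Prime ∧ q ≠ 2 ∧ q ≤ P ∧ q / 2 % 2 = r)
    (hg : ∀ ℓ ∈ opr y, g ℓ = 1 ∨ g ℓ = -1)
    (hCg : ∀ q ∈ C, ∀ ℓ ∈ opr y, jacobiSym (ℓ : ℤ) q = g ℓ)
    (hu : u ≤ (opr y).card) (Z : ℝ) (hZ : ((y ^ u : ℕ) : ℝ) ≤ Z) (hZ1 : 1 ≤ Z) :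
    (C.card : ℝ) ≤ P / ((opr y).card.choose u : ℝ) +
      (4 ^ u * (2 * Z * (1 + 2 * log Z))) := by
  obtain ⟨S, hS⟩ : ∃ S : Finset ℕ, S = prods (opr y) u := ⟨_, rfl⟩
  have hA : ∀ p ∈ opr y, p.Prime := fun p hp => (mem_opr.mp hp).1
  have hAy : ∀ p ∈ opr y, p ≤ y := fun p hp => (mem_opr.mp hp).2.1
  have hScard : S.card = (opr y).card.choose u := by rw [hS, card_prods hA]
  have hSpos : (0 : ℝ) < S.card := by
    rw [hScard]; exact_mod_cast Nat.choose_pos hu
  have hspec : ∀ s ∈ S, 1 ≤ s ∧ s ≤ y ^ u ∧ s.primeFactors ⊆ opr y ∧ Squarefree s ∧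
      s.primeFactors.card = u := fun s hs => prods_spec hA hAy (by rw [← hS]; exact hs)
  have hodd : ∀ s ∈ S, Odd s := by
    intro s hs
    obtain ⟨h1, _, h3, _, _⟩ := hspec s hs
    rw [← Nat.not_even_iff_odd, even_iff_two_dvd]
    intro h
    have : 2 ∈ opr y := h3 (Nat.mem_primeFactors.mpr ⟨Nat.prime_two, h, by omega⟩)
    exact (mem_opr.mp this).2.2 rfl
  have hprod : ∀ s ∈ S, ∏ ℓ ∈ s.primeFactors, ℓ = s := fun s hs =>
    Nat.prod_primeFactors_of_squarefree (hspec s hs).2.2.2.1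
  -- the function
  obtain ⟨h, hh⟩ : ∃ h : ℕ → ℤ, ∀ ℓ, h ℓ = (-1) ^ (r * (ℓ / 2)) * g ℓ := ⟨_, fun _ => rfl⟩
  have hh1 : ∀ ℓ ∈ opr y, h ℓ = 1 ∨ h ℓ = -1 := by
    intro ℓ hℓ
    rw [hh]
    rcases neg_one_pow_eq_or ℤ (r * (ℓ / 2)) with e | e <;> rcases hg ℓ hℓ with e' | e' <;>
      rw [e, e'] <;> norm_num
  have hJ : ∀ q ∈ C, ∀ ℓ ∈ opr y, jacobiSym (q : ℤ) ℓ = h ℓ := by
    intro q hq ℓ hℓ
    obtain ⟨hqp, hq2, _, hq4⟩ := hC q hq
    have ho := hqp.odd_of_ne_two hq2
    have ho' := (hA ℓ hℓ).odd_of_ne_two (mem_opr.mp hℓ).2.2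
    rw [jacobiSym.quadratic_reciprocity ho ho', hCg q hq ℓ hℓ, hh]
    congr 1
    have e1 : q / 2 = 2 * (q / 2 / 2) + r := by omega
    rw [e1, add_mul, pow_add, show 2 * (q / 2 / 2) * (ℓ / 2) = 2 * (q / 2 / 2 * (ℓ / 2)) by ring,
      pow_mul]
    norm_num
  obtain ⟨f, hf⟩ : ∃ f : ℕ → ℤ, ∀ s, f s = ∏ ℓ ∈ s.primeFactors, h ℓ := ⟨_, fun _ => rfl⟩
  have hf1 : ∀ s ∈ S, f s = 1 ∨ f s = -1 := by
    intro s hs
    rw [hf]
    have h3 := (hspec s hs).2.2.1
    have key : ∀ T : Finset ℕ, T ⊆ opr y → (∏ ℓ ∈ T, h ℓ = 1 ∨ ∏ ℓ ∈ T, h ℓ = -1) := by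
      intro T
      induction T using Finset.induction_on with
      | empty => intro _; left; simp
      | insert x T hx ih =>
        intro hT
        rw [prod_insert hx]
        have h4 := ih ((subset_insert x T).trans hT)
        have h5 := hh1 x (hT (mem_insert_self x T))
        rcases h4 with e | e <;> rcases h5 with e' | e' <;> rw [e, e'] <;> norm_num
    exact key _ h3
  have hfJ : ∀ q ∈ C, ∀ s ∈ S, f s * jacobiSym (q : ℤ) s = 1 := by
    intro q hq s hs
    have e1 : jacobiSym (q : ℤ) s = f s := by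
      rw [hf]
      conv_lhs => rw [← hprod s hs]
      rw [jacobi_prod]
      · exact prod_congr rfl fun ℓ hℓ => hJ q hq ℓ ((hspec s hs).2.2.1 hℓ)
      · intro x hx; exact (Nat.prime_of_mem_primeFactors hx).ne_zero
    rw [e1]
    rcases hf1 s hs with e | e <;> rw [e] <;> norm_num
  have hR0 : (0 : ℝ) ≤ 4 ^ u * (2 * Z * (1 + 2 * log Z)) := by
    have : 0 ≤ log Z := log_nonneg hZ1
    positivity
  have hcore := class_core C S P (fun q hq => ⟨(hC q hq).1.pos, (hC q hq).2.2.1⟩) f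
    (fun s hs => by rcases hf1 s hs with e | e <;> rw [e] <;> norm_num)
    (fun s hs => by have := (hspec s hs).1; omega) hfJ (4 ^ u * (2 * Z * (1 + 2 * log Z))) hR0
    (by
      intro s hs s' hs' hne
      obtain ⟨a1, a2, a3, a4, a5⟩ := hspec s hs
      obtain ⟨b1, b2, b3, b4, b5⟩ := hspec s' hs'
      have hM1 : 1 ≤ s * s' := Nat.mul_pos a1 b1
      have h1 := jacobi_sum_le (s * s') hM1
        (exists_neg_one a4 b4 (hodd s hs) (hodd s' hs') hne) P
      have hsZ : (s : ℝ) ≤ Z := le_trans (by exact_mod_cast a2) hZ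
      have hsZ' : (s' : ℝ) ≤ Z := le_trans (by exact_mod_cast b2) hZ
      have hM : ((s * s' : ℕ) : ℝ) ≤ Z ^ 2 := by
        push_cast
        rw [sq]
        exact mul_le_mul hsZ hsZ' (Nat.cast_nonneg _) (by linarith)
      have hM1' : (1 : ℝ) ≤ ((s * s' : ℕ) : ℝ) := by exact_mod_cast hM1
      have hd : ((s * s').divisors.card : ℝ) ≤ 4 ^ u := by
        have e1 : (s * s').divisors.card ≤ 2 ^ u * 2 ^ u := by
          refine (card_div_mul_le s s').trans ?_
          apply Nat.mul_le_mul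
          · have := card_div_prod s.primeFactors fun x hx => Nat.prime_of_mem_primeFactors hx
            rwa [hprod s hs, a5] at this
          · have := card_div_prod s'.primeFactors fun x hx => Nat.prime_of_mem_primeFactors hx
            rwa [hprod s' hs', b5] at this
        have e2 : (2 : ℕ) ^ u * 2 ^ u = 4 ^ u := by rw [← mul_pow]; norm_num
        rw [e2] at e1
        exact_mod_cast e1
      have hsq : √((s * s' : ℕ) : ℝ) ≤ Z := by
        rw [sqrt_le_iff]
        exact ⟨by linarith, hM⟩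
      have hlog : log ((s * s' : ℕ) : ℝ) ≤ 2 * log Z := by
        have := log_le_log (by linarith) hM
        rwa [log_pow] at this
      have hlog0 : 0 ≤ log ((s * s' : ℕ) : ℝ) := log_nonneg hM1'
      refine h1.trans ?_
      gcongr)
  rw [← hScard]
  have h7 : (C.card : ℝ) * S.card ≤ P + S.card * (4 ^ u * (2 * Z * (1 + 2 * log Z))) := by
    have e1 : (C.card : ℝ) * S.card * S.card ≤
        (P + S.card * (4 ^ u * (2 * Z * (1 + 2 * log Z)))) * S.card := by
      linarith [hcore]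
    exact le_of_mul_le_mul_right e1 hSpos
  have h8 : (C.card : ℝ) ≤ (P + S.card * (4 ^ u * (2 * Z * (1 + 2 * log Z)))) / S.card := by
    rw [le_div_iff₀ hSpos]; exact h7
  refine h8.trans (le_of_eq ?_)
  field_simp

/-- The class bound. -/
theorem class_bound (ε : ℝ) (hε : 0 < ε) : ∃ K : ℝ, 0 < K ∧ ∀ (P : ℕ), 1 ≤ P → ∀ (C : Finset ℕ)
    (g : ℕ → ℤ), (∀ q ∈ C, q.Prime ∧ q ≠ 2 ∧ q ≤ P) →
    (∀ ℓ ∈ opr ⌊(log P) ^ 2⌋₊, g ℓ = 1 ∨ g ℓ = -1) →
    (∀ q ∈ C, ∀ ℓ ∈ opr ⌊(log P) ^ 2⌋₊, jacobiSym (ℓ : ℤ) q = g ℓ) →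
    (C.card : ℝ) ≤ K * (P : ℝ) ^ (2 / 3 + ε) := by
  obtain ⟨δ, hδ0, hδ, hδ2⟩ : ∃ δ : ℝ, 0 < δ ∧ δ ≤ ε / 8 ∧ δ ≤ 1 / 2 :=
    ⟨min (ε / 8) (1 / 2), by positivity, min_le_left _ _, min_le_right _ _⟩
  have hev1 : ∀ᶠ t : ℝ in Filter.atTop, 160 ≤ t := Filter.eventually_ge_atTop _
  have hev2 : ∀ᶠ t : ℝ in Filter.atTop, 2 * log t ≤ δ * t := by
    have h1 : ∀ᶠ t : ℝ in Filter.atTop, ‖log t‖ ≤ δ / 2 * ‖t‖ :=
      isLittleO_log_id_atTop.def (by positivity)
    filter_upwards [h1, Filter.eventually_ge_atTop 1] with t a1 a3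
    rw [norm_of_nonneg (log_nonneg a3), norm_of_nonneg (by linarith)] at a1
    linarith
  have hev3 : ∀ᶠ t : ℝ in Filter.atTop, 1.4 / δ + 4 ≤ 2 * log t - 1 := by
    have h1 : ∀ᶠ t : ℝ in Filter.atTop, (1.4 / δ + 5) / 2 ≤ log t :=
      tendsto_log_atTop.eventually (Filter.eventually_ge_atTop _)
    filter_upwards [h1] with t a1
    linarith
  have hev4 : ∀ᶠ t : ℝ in Filter.atTop, 4 ≤ δ * t := by
    filter_upwards [Filter.eventually_ge_atTop (4 / δ)] with t a1
    rw [div_le_iff₀ hδ0] at a1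
    linarith
  obtain ⟨t0, ht0⟩ := Filter.eventually_atTop.mp (hev1.and (hev2.and (hev3.and hev4)))
  refine ⟨exp t0 + 1, by positivity, ?_⟩
  intro P hP C g hC hg hCg
  have hP1 : (1 : ℝ) ≤ P := by exact_mod_cast hP
  have hP0 : (0 : ℝ) < P := by linarith
  obtain ⟨t, ht⟩ : ∃ t : ℝ, t = log P := ⟨_, rfl⟩
  have hPt : (P : ℝ) = exp t := by rw [ht, exp_log hP0]
  have hPe : (P : ℝ) ^ (2 / 3 + ε) = exp ((2 / 3 + ε) * t) := by
    rw [rpow_def_of_pos hP0, ← ht, mul_comm]
  have ht_nonneg : 0 ≤ t := by rw [ht]; exact log_nonneg hP1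
  rcases lt_or_ge t t0 with hsmall | hlarge
  · -- small `P`
    have h1 : (C.card : ℝ) ≤ P := by
      have h2 : C ⊆ Icc 1 P := by
        intro q hq
        rw [mem_Icc]
        exact ⟨(hC q hq).1.pos, (hC q hq).2.2⟩
      have h3 := card_le_card h2
      rw [Nat.card_Icc, Nat.add_sub_cancel] at h3
      exact_mod_cast h3
    have h2 : (1 : ℝ) ≤ (P : ℝ) ^ (2 / 3 + ε) := one_le_rpow hP1 (by linarith)
    have h3 : (P : ℝ) ≤ exp t0 := by rw [hPt]; exact exp_le_exp.mpr hsmall.le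
    calc (C.card : ℝ) ≤ exp t0 + 1 := by linarith
      _ = (exp t0 + 1) * 1 := (mul_one _).symm
      _ ≤ _ := mul_le_mul_of_nonneg_left h2 (by positivity)
  · obtain ⟨h160, hl1, hl2, hl3⟩ := ht0 t hlarge
    have htpos : 0 < t := by linarith
    rw [← ht] at hg hCg
    obtain ⟨y, hy⟩ : ∃ y : ℕ, y = ⌊t ^ 2⌋₊ := ⟨_, rfl⟩
    rw [← hy] at hg hCg
    have hyle : (y : ℝ) ≤ t ^ 2 := by rw [hy]; exact Nat.floor_le (by positivity)
    have hylt : t ^ 2 < y + 1 := by rw [hy]; exact Nat.lt_floor_add_one _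
    have hy100 : (100 : ℝ) ≤ y := by nlinarith
    have hy2 : 2 ≤ y := by
      have : (2 : ℝ) ≤ y := by linarith
      exact_mod_cast this
    have hy0 : (0 : ℝ) < y := by linarith
    obtain ⟨Y, hY⟩ : ∃ Y : ℝ, Y = log y := ⟨_, rfl⟩
    have hlogt0 : 0 ≤ log t := log_nonneg (by linarith)
    have hδt : δ * t ≤ 1 / 2 * t := mul_le_mul_of_nonneg_right hδ2 htpos.le
    have hδε : 8 * (δ * t) ≤ ε * t := by
      have := mul_le_mul_of_nonneg_right hδ htpos.le
      linarith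
    have htt : 160 * t ≤ t * t := mul_le_mul_of_nonneg_right h160 htpos.le
    have hYle : Y ≤ 2 * log t := by
      have h3 := log_le_log hy0 hyle
      rw [log_pow] at h3
      push_cast at h3
      rw [hY]; exact h3
    have hYge : 2 * log t - 1 ≤ Y := by
      have h3 : t ^ 2 * exp (-1) ≤ y := by
        have h4 : exp (-1) ≤ 1 / 2 := by
          rw [exp_neg, one_div]
          exact inv_anti₀ (by norm_num) (by linarith [exp_one_gt_d9])
        nlinarith
      have h4 := log_le_log (by positivity) h3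
      rw [log_mul (by positivity) (exp_pos _).ne', log_exp, log_pow] at h4
      push_cast at h4
      rw [hY]; linarith
    have hYpos : 0 < Y := by
      have : (0 : ℝ) ≤ 1.4 / δ := by positivity
      linarith
    have htY : 1.4 * (t / Y) ≤ δ * t := by
      have h3 : 1.4 / δ ≤ Y := by linarith
      rw [div_le_iff₀ hδ0] at h3
      rw [mul_div_assoc', div_le_iff₀ hYpos]
      nlinarith
    -- the parameters
    obtain ⟨Z, hZ⟩ : ∃ Z : ℝ, Z = exp (2 / 3 * t) := ⟨_, rfl⟩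
    have hZ1 : 1 ≤ Z := by rw [hZ]; exact one_le_exp (by positivity)
    obtain ⟨u, hu⟩ : ∃ u : ℕ, u = Nat.log y ⌊Z⌋₊ := ⟨_, rfl⟩
    have hfl : ⌊Z⌋₊ ≠ 0 := by
      have : 1 ≤ ⌊Z⌋₊ := Nat.le_floor (by exact_mod_cast hZ1)
      omega
    have huD : y ^ u ≤ ⌊Z⌋₊ := by rw [hu]; exact Nat.pow_log_le_self y hfl
    have huD' : ⌊Z⌋₊ < y ^ (u + 1) := by rw [hu]; exact Nat.lt_pow_succ_log_self (by omega) _
    have huZ : ((y ^ u : ℕ) : ℝ) ≤ Z := by
      refine le_trans ?_ (Nat.floor_le (by linarith))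
      exact_mod_cast huD
    have hlogZ : log Z = 2 / 3 * t := by rw [hZ, log_exp]
    have hut : u * Y ≤ 2 / 3 * t := by
      have h3 := huZ
      push_cast at h3
      have h4 := log_le_log (by positivity) h3
      rw [log_pow, hlogZ] at h4
      rw [hY]; exact h4
    have hut' : 2 / 3 * t ≤ (u + 1) * Y := by
      have h3 : Z < ((y ^ (u + 1) : ℕ) : ℝ) := by
        have h5 : ⌊Z⌋₊ + 1 ≤ y ^ (u + 1) := huD'
        have h6 : ((⌊Z⌋₊ + 1 : ℕ) : ℝ) ≤ ((y ^ (u + 1) : ℕ) : ℝ) := by exact_mod_cast h5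
        push_cast at h6 ⊢
        linarith [Nat.lt_floor_add_one Z]
      push_cast at h3
      have h4 := log_lt_log (by linarith) h3
      rw [log_pow, hlogZ] at h4
      push_cast at h4
      rw [hY]; linarith
    have hutY : (u : ℝ) ≤ 2 / 3 * (t / Y) := by
      rw [mul_div_assoc', le_div_iff₀ hYpos]; exact hut
    have hu1 : 1 ≤ u := by
      by_contra h
      have h0 : u = 0 := by omega
      rw [h0] at hut'
      push_cast at hut'
      linarith
    have hu0 : (0 : ℝ) < u := by exact_mod_cast hu1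
    -- number of primes
    obtain ⟨N, hN⟩ : ∃ N : ℕ, N = (opr y).card := ⟨_, rfl⟩
    have hNr : (N : ℝ) = Nat.primeCounting y - 1 := by rw [hN]; exact card_opr hy2
    have hNlow : (y : ℝ) * log 2 - log (y + 1) ≤ (N + 1) * Y := by
      rw [hNr, hY]
      have := primeCounting_low (y := y)
      linarith
    have hlogy1 : log ((y : ℝ) + 1) ≤ 4 * t := by
      have h3 : (y : ℝ) + 1 ≤ (1 + 2 * t) ^ 2 := by nlinarith
      have h4 := log_le_log (by positivity) h3
      rw [log_pow] at h4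
      have h5 := log_le_sub_one_of_pos (by positivity : 0 < 1 + 2 * t)
      push_cast at h4
      linarith
    have hNY : 1 / 2 * t ^ 2 ≤ (N + 1 - u) * Y := by
      have h3 : 0.693 * (t ^ 2 - 1) ≤ y * log 2 := by
        have h4 : (0.693 : ℝ) ≤ log 2 := by linarith [log_two_gt_d9]
        have h5 : t ^ 2 - 1 ≤ y := by linarith
        calc 0.693 * (t ^ 2 - 1) ≤ 0.693 * y := mul_le_mul_of_nonneg_left h5 (by norm_num)
          _ ≤ log 2 * y := mul_le_mul_of_nonneg_right h4 hy0.le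
          _ = y * log 2 := mul_comm _ _
      nlinarith
    have hsqpos : 0 < √(y : ℝ) := sqrt_pos.mpr hy0
    have hratio : 1 / 2 * √(y : ℝ) * u ≤ N + 1 - u := by
      have h3 : 1 / 2 * √(y : ℝ) * u * Y ≤ (N + 1 - u) * Y := by
        have hs : √(y : ℝ) ≤ t := by
          rw [sqrt_le_iff]; exact ⟨by positivity, hyle⟩
        have h4 : 1 / 2 * √(y : ℝ) * (u * Y) ≤ 1 / 2 * √(y : ℝ) * (2 / 3 * t) :=
          mul_le_mul_of_nonneg_left hut (by positivity)
        have h5 : √(y : ℝ) * t ≤ t * t := mul_le_mul_of_nonneg_right hs htpos.le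
        nlinarith
      exact le_of_mul_le_mul_right h3 hYpos
    have hNu : u ≤ N := by
      have h3 : (0 : ℝ) < 1 / 2 * √(y : ℝ) * u := by positivity
      have h4 : (u : ℝ) < ((N + 1 : ℕ) : ℝ) := by push_cast; linarith
      have h5 : u < N + 1 := by exact_mod_cast h4
      omega
    -- lower bound for the binomial
    have hchoose : exp (1 / 3 * t - Y / 2 - 0.7 * u) ≤ (N.choose u : ℝ) := by
      have h1 := log_choose hu1 hNu
      have h2 : log (1 / 2) + Y / 2 + log u ≤ log ((N : ℝ) + 1 - u) := by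
        have h3 := log_le_log (by positivity) hratio
        rw [log_mul (by positivity) hu0.ne', log_mul (by norm_num) hsqpos.ne', log_sqrt hy0.le,
          ← hY] at h3
        linarith
      have h3 : log (1 / 2 : ℝ) = - log 2 := by rw [one_div, log_inv]
      have h4 : u * (- log 2 + Y / 2 + log u) ≤ u * log ((N : ℝ) + 1 - u) :=
        mul_le_mul_of_nonneg_left (by linarith) hu0.le
      have h5 : log (u : ℝ) ≤ u - 1 := log_le_sub_one_of_pos hu0
      have h6 : u * log 2 ≤ 0.7 * u := by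
        have : log 2 ≤ 0.7 := by linarith [log_two_lt_d9]
        nlinarith
      have hc : (0 : ℝ) < (N.choose u : ℝ) := by exact_mod_cast Nat.choose_pos hNu
      rw [← log_le_log_iff (exp_pos _) hc, log_exp]
      linarith
    have hmain : (P : ℝ) / (N.choose u : ℝ) + 4 ^ u * (2 * Z * (1 + 2 * log Z)) ≤
        1 / 2 * exp ((2 / 3 + ε) * t) := by
      have h1 : (P : ℝ) / (N.choose u : ℝ) ≤ exp ((2 / 3 + ε) * t - 2) := by
        have e1 : (P : ℝ) / (N.choose u : ℝ) ≤ P / exp (1 / 3 * t - Y / 2 - 0.7 * u) :=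
          div_le_div_of_nonneg_left hP0.le (exp_pos _) hchoose
        refine e1.trans ?_
        rw [hPt, ← exp_sub]
        apply exp_le_exp.mpr
        linarith
      have h2 : (4 : ℝ) ^ u ≤ exp (1.4 * u) := by
        have e1 : (4 : ℝ) ≤ exp 1.4 := by
          rw [← log_le_iff_le_exp (by norm_num), show (4 : ℝ) = 2 ^ 2 by norm_num, log_pow]
          push_cast
          linarith [log_two_lt_d9]
        calc (4 : ℝ) ^ u ≤ (exp 1.4) ^ u := pow_le_pow_left₀ (by norm_num) e1 u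
          _ = exp (1.4 * u) := by rw [← exp_nat_mul, mul_comm]
      have h3 : 2 * (1 + 2 * log Z) ≤ exp (2 * log t) := by
        rw [hlogZ, show 2 * log t = log t + log t by ring, exp_add, exp_log htpos]
        nlinarith
      have h4 : (4 : ℝ) ^ u * (2 * Z * (1 + 2 * log Z)) ≤ exp ((2 / 3 + ε) * t - 2) := by
        have e0 : 0 ≤ 2 * (1 + 2 * log Z) := by rw [hlogZ]; positivity
        calc (4 : ℝ) ^ u * (2 * Z * (1 + 2 * log Z)) = 4 ^ u * Z * (2 * (1 + 2 * log Z)) := by ring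
          _ ≤ exp (1.4 * u) * Z * exp (2 * log t) :=
              mul_le_mul (mul_le_mul_of_nonneg_right h2 (by linarith)) h3 e0 (by positivity)
          _ = exp (1.4 * u) * exp (2 / 3 * t) * exp (2 * log t) := by rw [hZ]
          _ = exp (1.4 * u + 2 / 3 * t + 2 * log t) := by rw [exp_add, exp_add]
          _ ≤ _ := by
              apply exp_le_exp.mpr
              linarith
      have h5 : exp ((2 / 3 + ε) * t - 2) ≤ 1 / 4 * exp ((2 / 3 + ε) * t) := by
        rw [sub_eq_add_neg, exp_add, mul_comm]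
        apply mul_le_mul_of_nonneg_right _ (exp_pos _).le
        have : exp (-2 : ℝ) = (exp 1 * exp 1)⁻¹ := by rw [← exp_add, ← exp_neg]; norm_num
        rw [this, show (1 / 4 : ℝ) = 4⁻¹ by norm_num]
        apply inv_anti₀ (by norm_num)
        nlinarith [exp_one_gt_d9]
      linarith
    -- the two classes mod 4
    have hsplit : C = C.filter (fun q => q / 2 % 2 = 0) ∪ C.filter (fun q => q / 2 % 2 = 1) := by
      ext q
      rw [mem_union, mem_filter, mem_filter]
      constructor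
      · intro h
        rcases Nat.mod_two_eq_zero_or_one (q / 2) with h1 | h1
        · exact Or.inl ⟨h, h1⟩
        · exact Or.inr ⟨h, h1⟩
      · rintro (h | h) <;> exact h.1
    have hcl : ∀ r, ((C.filter (fun q => q / 2 % 2 = r)).card : ℝ) ≤
        1 / 2 * exp ((2 / 3 + ε) * t) := by
      intro r
      refine le_trans (class_param _ P y u r g ?_ hg ?_ (by rw [← hN]; exact hNu) Z huZ hZ1) ?_
      · intro q hq
        rw [mem_filter] at hq
        obtain ⟨a1, a2, a3⟩ := hC q hq.1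
        exact ⟨a1, a2, a3, hq.2⟩
      · intro q hq ℓ hℓ
        rw [mem_filter] at hq
        exact hCg q hq.1 ℓ hℓ
      · rw [← hN]; exact hmain
    have hcard : (C.card : ℝ) ≤ exp ((2 / 3 + ε) * t) := by
      have h1 := card_union_le (C.filter (fun q => q / 2 % 2 = 0)) (C.filter (fun q => q / 2 % 2 = 1))
      rw [← hsplit] at h1
      have h2 : (C.card : ℝ) ≤ ((C.filter (fun q => q / 2 % 2 = 0)).card : ℝ) +
          ((C.filter (fun q => q / 2 % 2 = 1)).card : ℝ) := by exact_mod_cast h1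
      linarith [hcl 0, hcl 1]
    rw [hPe]
    refine hcard.trans ?_
    have : (0 : ℝ) ≤ exp t0 * exp ((2 / 3 + ε) * t) := by positivity
    linarith

end Pool.Agent.H379R2.W
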