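import Mathlib

set_option autoImplicit false

/-! Counting squarefree numbers composed of primes of a sparse set. -/

namespace Pool.Agent.H379R2.W

open Finset Real

/-- sums over sparse sets -/
lemma rank_sum (A : Finset ℕ) (K α σ : ℝ) (hK : 0 < K) (hα : 0 < α) (hσ : α < σ)
    (hA0 : ∀ q ∈ A, 1 ≤ q)
    (hA : ∀ q ∈ A, ((A.filter (fun q' => q' ≤ q)).card : ℝ) ≤ K * (q : ℝ) ^ α) :
    ∑ q ∈ A, (q : ℝ) ^ (-σ) ≤ K ^ (σ / α) * ∑' k : ℕ, (k : ℝ) ^ (-(σ / α)) := by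
  have hβ : 1 < σ / α := by rw [lt_div_iff₀ hα]; linarith
  have hsum : Summable fun k : ℕ => (k : ℝ) ^ (-(σ / α)) :=
    Real.summable_nat_rpow.mpr (by linarith)
  obtain ⟨r, hr⟩ : ∃ r : ℕ → ℕ, ∀ q, r q = (A.filter (fun q' => q' ≤ q)).card := ⟨_, fun _ => rfl⟩
  have hr1 : ∀ q ∈ A, 1 ≤ r q := by
    intro q hq
    rw [hr]
    exact Finset.card_pos.mpr ⟨q, mem_filter.mpr ⟨hq, le_refl q⟩⟩
  have hinj : Set.InjOn r A := by
    have hlt : ∀ q ∈ A, ∀ q' ∈ A, q < q' → r q < r q' := by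
      intro q hq q' hq' hlt
      rw [hr, hr]
      apply card_lt_card
      rw [ssubset_iff_of_subset]
      · exact ⟨q', mem_filter.mpr ⟨hq', le_refl q'⟩, fun h => by
          have := (mem_filter.mp h).2; omega⟩
      · intro z hz
        rw [mem_filter] at hz ⊢
        exact ⟨hz.1, by omega⟩
    intro q hq q' hq' h
    rcases lt_trichotomy q q' with h1 | h1 | h1
    · have := hlt q hq q' hq' h1; omega
    · exact h1
    · have := hlt q' hq' q hq h1; omega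
  have h1 : ∀ q ∈ A, (q : ℝ) ^ (-σ) ≤ K ^ (σ / α) * (r q : ℝ) ^ (-(σ / α)) := by
    intro q hq
    have hq0 : (0 : ℝ) < q := by exact_mod_cast hA0 q hq
    have hr0 : (0 : ℝ) < r q := by exact_mod_cast hr1 q hq
    have h2 := hA q hq
    rw [← hr] at h2
    have h3 : (r q : ℝ) / K ≤ (q : ℝ) ^ α := by rw [div_le_iff₀ hK]; linarith
    have h4 : ((q : ℝ) ^ α) ^ (-(σ / α)) ≤ ((r q : ℝ) / K) ^ (-(σ / α)) :=
      rpow_le_rpow_of_nonpos (by positivity) h3 (by linarith)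
    rw [← rpow_mul hq0.le, div_rpow hr0.le hK.le] at h4
    have h5 : α * -(σ / α) = -σ := by field_simp
    rw [h5] at h4
    refine h4.trans (le_of_eq ?_)
    rw [rpow_neg hK.le]
    field_simp
  refine (sum_le_sum h1).trans ?_
  rw [← mul_sum]
  apply mul_le_mul_of_nonneg_left _ (by positivity)
  have h2 : ∑ q ∈ A, (r q : ℝ) ^ (-(σ / α)) = ∑ k ∈ A.image r, (k : ℝ) ^ (-(σ / α)) := by
    rw [sum_image fun a ha b hb h => hinj ha hb h]
  rw [h2]
  exact hsum.sum_le_tsum _ fun k _ => by positivity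

/-- squarefree numbers `≤ M` with all prime factors in `A` -/
def smf (A : Finset ℕ) (M : ℕ) : Finset ℕ :=
  (Icc 1 M).filter (fun m => Squarefree m ∧ m.primeFactors ⊆ A)

/-- Rankin's trick -/
lemma rankin (A : Finset ℕ) (M : ℕ) (X σ : ℝ) (hX : (M : ℝ) ≤ X) (hσ : 0 < σ)
    (hA0 : ∀ q ∈ A, 1 ≤ q) :
    ((smf A M).card : ℝ) ≤ X ^ σ * exp (∑ q ∈ A, (q : ℝ) ^ (-σ)) := by
  have h1 : ∀ m ∈ smf A M, (1 : ℝ) ≤ X ^ σ * ∏ q ∈ m.primeFactors, (q : ℝ) ^ (-σ) := by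
    intro m hm
    rw [smf, mem_filter, mem_Icc] at hm
    obtain ⟨⟨h1, h2⟩, h3, h4⟩ := hm
    have hm0 : (0 : ℝ) < m := by exact_mod_cast h1
    have hmX : (m : ℝ) ≤ X := le_trans (by exact_mod_cast h2) hX
    have e1 : ∏ q ∈ m.primeFactors, (q : ℝ) ^ (-σ) = (m : ℝ) ^ (-σ) := by
      rw [Real.finsetProd_rpow _ _ fun i _ => Nat.cast_nonneg i]
      congr 1
      rw [← Nat.cast_prod, Nat.prod_primeFactors_of_squarefree h3]
    rw [e1, rpow_neg hm0.le, ← div_eq_mul_inv, one_le_div (by positivity)]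
    exact rpow_le_rpow hm0.le hmX hσ.le
  have hX0 : 0 ≤ X := le_trans (Nat.cast_nonneg M) hX
  have h2 : ((smf A M).card : ℝ) ≤ ∑ m ∈ smf A M, X ^ σ * ∏ q ∈ m.primeFactors, (q : ℝ) ^ (-σ) := by
    rw [card_eq_sum_ones]
    push_cast
    exact sum_le_sum h1
  refine h2.trans ?_
  rw [← mul_sum]
  apply mul_le_mul_of_nonneg_left _ (by positivity)
  have hinj : Set.InjOn Nat.primeFactors (smf A M : Set ℕ) := by
    intro a ha b hb h
    rw [mem_coe, smf, mem_filter] at ha hb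
    rw [← Nat.prod_primeFactors_of_squarefree ha.2.1, ← Nat.prod_primeFactors_of_squarefree hb.2.1, h]
  have h3 : ∑ m ∈ smf A M, ∏ q ∈ m.primeFactors, (q : ℝ) ^ (-σ) =
      ∑ T ∈ (smf A M).image Nat.primeFactors, ∏ q ∈ T, (q : ℝ) ^ (-σ) := by
    rw [sum_image fun a ha b hb h => hinj ha hb h]
  rw [h3]
  have h4 : (smf A M).image Nat.primeFactors ⊆ A.powerset := by
    intro T hT
    rw [mem_image] at hT
    obtain ⟨m, hm, rfl⟩ := hT
    rw [smf, mem_filter] at hm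
    exact mem_powerset.mpr hm.2.2
  refine (sum_le_sum_of_subset_of_nonneg h4 fun T _ _ => prod_nonneg fun q _ => by positivity).trans ?_
  rw [← Finset.prod_one_add, exp_sum]
  apply prod_le_prod
  · intro q _; positivity
  · intro q _
    have := add_one_le_exp ((q : ℝ) ^ (-σ))
    linarith

lemma sum_div_le (k : ℕ) (hk : 1 ≤ k) : ((∑ e ∈ k.divisors, e : ℕ) : ℝ) ≤ k * (1 + log k) := by
  have h1 : ((∑ e ∈ k.divisors, e : ℕ) : ℝ) = ∑ e ∈ k.divisors, (k : ℝ) / e := by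
    rw [← Nat.sum_div_divisors k (fun e => e)]
    push_cast
    apply sum_congr rfl
    intro e he
    rw [Nat.cast_div (Nat.dvd_of_mem_divisors he)]
    have := Nat.pos_of_mem_divisors he
    positivity
  rw [h1]
  have h2 : ∑ e ∈ k.divisors, (k : ℝ) / e ≤ ∑ e ∈ Icc 1 k, (k : ℝ) / e := by
    apply sum_le_sum_of_subset_of_nonneg
    · intro e he
      rw [mem_Icc]
      exact ⟨Nat.pos_of_mem_divisors he, Nat.divisor_le he⟩
    · intro e _ _; positivity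
  refine h2.trans ?_
  have h3 : ∑ e ∈ Icc 1 k, (k : ℝ) / e = k * ∑ e ∈ Icc 1 k, (1 / (e : ℝ)) := by
    rw [mul_sum]; exact sum_congr rfl fun e _ => by ring
  rw [h3]
  apply mul_le_mul_of_nonneg_left _ (Nat.cast_nonneg k)
  have h4 := harmonic_le_one_add_log k
  rw [harmonic_eq_sum_Icc] at h4
  push_cast at h4
  simpa [one_div] using h4

/-- `∑ k^{-σ}` -/
lemma sum_rpow_le (N : ℕ) (σ : ℝ) (hσ1 : σ ≤ 1) :
    ∑ k ∈ Icc 1 N, (k : ℝ) ^ (-σ) ≤ (N : ℝ) ^ (1 - σ) * (1 + log N) := by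
  have h1 : ∀ k ∈ Icc 1 N, (k : ℝ) ^ (-σ) ≤ (N : ℝ) ^ (1 - σ) * (1 / (k : ℝ)) := by
    intro k hk
    rw [mem_Icc] at hk
    have hk0 : (0 : ℝ) < k := by exact_mod_cast hk.1
    have hkN : (k : ℝ) ≤ N := by exact_mod_cast hk.2
    have e1 : (k : ℝ) ^ (-σ) = (k : ℝ) ^ (1 - σ) * (1 / (k : ℝ)) := by
      rw [show (-σ) = (1 - σ) + (-1) by ring, rpow_add hk0, rpow_neg_one, one_div]
    rw [e1]
    exact mul_le_mul_of_nonneg_right (rpow_le_rpow hk0.le hkN (by linarith)) (by positivity)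
  refine (sum_le_sum h1).trans ?_
  rw [← mul_sum]
  apply mul_le_mul_of_nonneg_left _ (by positivity)
  have h4 := harmonic_le_one_add_log N
  rw [harmonic_eq_sum_Icc] at h4
  push_cast at h4
  simpa [one_div] using h4

end Pool.Agent.H379R2.W
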