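import Pool.Agent.H379R2.W.ClassMain
import Pool.Agent.H379R2.W.Rankin
import Pool.Agent.H379R2.W.Group

set_option autoImplicit false

/-! Counting the bad numbers. -/

namespace Pool.Agent.H379R2.W

open Finset Real

open Classical in
/-- odd primes `≤ x` for which all small odd primes are quadratic residues -/
noncomputable def Cp (x : ℕ) : Finset ℕ :=
  (Icc 1 x).filter (fun q => q.Prime ∧ q ≠ 2 ∧ ∀ ℓ ∈ opr ⌊(log x) ^ 2⌋₊, jacobiSym (ℓ : ℤ) q = 1)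

open Classical in
/-- odd primes `≤ x` with the same symbols as `p` -/
noncomputable def Cl (x p : ℕ) : Finset ℕ :=
  (Icc 1 x).filter (fun q => q.Prime ∧ q ≠ 2 ∧
    ∀ ℓ ∈ opr ⌊(log x) ^ 2⌋₊, jacobiSym (ℓ : ℤ) q = jacobiSym (ℓ : ℤ) p)

lemma mem_Cp {x q : ℕ} : q ∈ Cp x ↔ (1 ≤ q ∧ q ≤ x) ∧ q.Prime ∧ q ≠ 2 ∧
    ∀ ℓ ∈ opr ⌊(log x) ^ 2⌋₊, jacobiSym (ℓ : ℤ) q = 1 := by
  rw [Cp, mem_filter, mem_Icc]

lemma mem_Cl {x p q : ℕ} : q ∈ Cl x p ↔ (1 ≤ q ∧ q ≤ x) ∧ q.Prime ∧ q ≠ 2 ∧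
    ∀ ℓ ∈ opr ⌊(log x) ^ 2⌋₊, jacobiSym (ℓ : ℤ) q = jacobiSym (ℓ : ℤ) p := by
  rw [Cl, mem_filter, mem_Icc]

lemma opr_mono {P x : ℕ} (hP : 1 ≤ P) (h : P ≤ x) {ℓ : ℕ} (hℓ : ℓ ∈ opr ⌊(log P) ^ 2⌋₊) :
    ℓ ∈ opr ⌊(log x) ^ 2⌋₊ := by
  rw [mem_opr] at hℓ ⊢
  refine ⟨hℓ.1, hℓ.2.1.trans ?_, hℓ.2.2⟩
  apply Nat.floor_le_floor
  apply pow_le_pow_left₀ (log_natCast_nonneg P)
  exact log_le_log (by exact_mod_cast hP) (by exact_mod_cast h)

lemma symbol_ne {x p ℓ : ℕ} (hp : p.Prime) (hpx : (log x) ^ 2 < p)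
    (hℓ : ℓ ∈ opr ⌊(log x) ^ 2⌋₊) : jacobiSym (ℓ : ℤ) p = 1 ∨ jacobiSym (ℓ : ℤ) p = -1 := by
  rw [mem_opr] at hℓ
  have h1 : (ℓ : ℝ) ≤ (log x) ^ 2 := by
    have h2 : (ℓ : ℝ) ≤ (⌊(log (x : ℝ)) ^ 2⌋₊ : ℝ) := by exact_mod_cast hℓ.2.1
    exact h2.trans (Nat.floor_le (by positivity))
  have h2 : (ℓ : ℝ) < p := by linarith
  have h3 : ℓ < p := by exact_mod_cast h2
  have hco : Nat.Coprime ℓ p := (Nat.coprime_primes hℓ.1 hp).mpr h3.ne
  have : NeZero p := ⟨hp.ne_zero⟩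
  rcases jacobiSym.trichotomy (ℓ : ℤ) p with h | h | h
  · exfalso
    rw [jacobiSym.eq_zero_iff_not_coprime, Int.gcd_natCast_natCast] at h
    exact h hco
  · exact Or.inl h
  · exact Or.inr h

/-- rank bounds -/
lemma rank_bound (ε : ℝ) (hε : 0 < ε) : ∃ K : ℝ, 0 < K ∧ ∀ x : ℕ,
    (∀ q ∈ Cp x, (((Cp x).filter (fun q' => q' ≤ q)).card : ℝ) ≤ K * (q : ℝ) ^ (2 / 3 + ε)) ∧
    (∀ p : ℕ, p.Prime → (log x) ^ 2 < p → ∀ q ∈ Cp x ∪ Cl x p,
      (((Cp x ∪ Cl x p).filter (fun q' => q' ≤ q)).card : ℝ) ≤ K * (q : ℝ) ^ (2 / 3 + ε)) := by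
  obtain ⟨K, hK, hcl⟩ := class_bound ε hε
  refine ⟨2 * K, by positivity, fun x => ?_⟩
  have h1 : ∀ q : ℕ, 1 ≤ q → q ≤ x → (((Cp x).filter (fun q' => q' ≤ q)).card : ℝ) ≤
      K * (q : ℝ) ^ (2 / 3 + ε) := by
    intro q hq1 hqx
    apply hcl q hq1 _ (fun _ => 1)
    · intro z hz
      rw [mem_filter, mem_Cp] at hz
      exact ⟨hz.1.2.1, hz.1.2.2.1, hz.2⟩
    · intro ℓ _; left; rfl
    · intro z hz ℓ hℓ
      rw [mem_filter, mem_Cp] at hz
      exact hz.1.2.2.2 ℓ (opr_mono hq1 hqx hℓ)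
  have h2 : ∀ p : ℕ, p.Prime → (log x) ^ 2 < p → ∀ q : ℕ, 1 ≤ q → q ≤ x →
      (((Cl x p).filter (fun q' => q' ≤ q)).card : ℝ) ≤ K * (q : ℝ) ^ (2 / 3 + ε) := by
    intro p hp hpx q hq1 hqx
    apply hcl q hq1 _ (fun ℓ => jacobiSym (ℓ : ℤ) p)
    · intro z hz
      rw [mem_filter, mem_Cl] at hz
      exact ⟨hz.1.2.1, hz.1.2.2.1, hz.2⟩
    · intro ℓ hℓ
      exact symbol_ne hp hpx (opr_mono hq1 hqx hℓ)
    · intro z hz ℓ hℓ
      rw [mem_filter, mem_Cl] at hz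
      exact hz.1.2.2.2 ℓ (opr_mono hq1 hqx hℓ)
  constructor
  · intro q hq
    rw [mem_Cp] at hq
    have h3 := h1 q hq.1.1 hq.1.2
    have : 0 ≤ K * (q : ℝ) ^ (2 / 3 + ε) := by positivity
    linarith
  · intro p hp hpx q hq
    have hq' : 1 ≤ q ∧ q ≤ x := by
      rw [mem_union, mem_Cp, mem_Cl] at hq
      rcases hq with h | h <;> exact h.1
    have h3 := h1 q hq'.1 hq'.2
    have h4 := h2 p hp hpx q hq'.1 hq'.2
    rw [filter_union]
    have h5 := card_union_le ((Cp x).filter (fun q' => q' ≤ q)) ((Cl x p).filter (fun q' => q' ≤ q))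
    have h6 : ((((Cp x).filter (fun q' => q' ≤ q)) ∪ ((Cl x p).filter (fun q' => q' ≤ q))).card : ℝ) ≤
        (((Cp x).filter (fun q' => q' ≤ q)).card : ℝ) +
        (((Cl x p).filter (fun q' => q' ≤ q)).card : ℝ) := by exact_mod_cast h5
    linarith

/-- the number of squarefree numbers composed of primes in a class -/
lemma fam_bound (ε : ℝ) (hε : 0 < ε) : ∃ E : ℝ, 0 < E ∧ ∀ x : ℕ,
    (∀ (M : ℕ) (X : ℝ), (M : ℝ) ≤ X → ((smf (Cp x) M).card : ℝ) ≤ E * X ^ (2 / 3 + 2 * ε)) ∧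
    (∀ p : ℕ, p.Prime → (log x) ^ 2 < p → ∀ (M : ℕ) (X : ℝ), (M : ℝ) ≤ X →
      ((smf (Cp x ∪ Cl x p) M).card : ℝ) ≤ E * X ^ (2 / 3 + 2 * ε)) := by
  obtain ⟨K, hK, hrank⟩ := rank_bound ε hε
  obtain ⟨α, hα⟩ : ∃ α : ℝ, α = 2 / 3 + ε := ⟨_, rfl⟩
  obtain ⟨σ, hσ⟩ : ∃ σ : ℝ, σ = 2 / 3 + 2 * ε := ⟨_, rfl⟩
  rw [← hα] at hrank
  rw [← hσ]
  have hα0 : 0 < α := by rw [hα]; positivity
  have hασ : α < σ := by rw [hα, hσ]; linarith
  refine ⟨exp (K ^ (σ / α) * ∑' k : ℕ, (k : ℝ) ^ (-(σ / α))), exp_pos _, fun x => ?_⟩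
  have key : ∀ A : Finset ℕ, (∀ q ∈ A, 1 ≤ q) →
      (∀ q ∈ A, ((A.filter (fun q' => q' ≤ q)).card : ℝ) ≤ K * (q : ℝ) ^ α) →
      ∀ (M : ℕ) (X : ℝ), (M : ℝ) ≤ X → ((smf A M).card : ℝ) ≤
        exp (K ^ (σ / α) * ∑' k : ℕ, (k : ℝ) ^ (-(σ / α))) * X ^ σ := by
    intro A hA0 hA M X hMX
    have h1 := rank_sum A K α σ hK hα0 hασ hA0 hA
    have h2 := rankin A M X σ hMX (by linarith) hA0
    refine h2.trans ?_
    rw [mul_comm]
    have hX0 : 0 ≤ X := le_trans (Nat.cast_nonneg M) hMX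
    exact mul_le_mul_of_nonneg_right (exp_le_exp.mpr h1) (by positivity)
  constructor
  · exact key _ (fun q hq => (mem_Cp.mp hq).1.1) (hrank x).1
  · intro p hp hpx
    exact key _ (fun q hq => by
      rw [mem_union, mem_Cp, mem_Cl] at hq
      rcases hq with h | h <;> exact h.1.1) ((hrank x).2 p hp hpx)

/-- structure of a bad squarefree number -/
lemma bad_struct {x n : ℕ} (hb : Bad n) (hnx : n ≤ x) (hlog : (log x) ^ 2 ≤ 2 * (log n) ^ 2)
    (hlog2 : 2 ≤ (log x) ^ 2) (hsq : Squarefree n) :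
    ∃ p m : ℕ, p.Prime ∧ (log x) ^ 2 < p ∧ n = p * m ∧ Squarefree m ∧
      m.primeFactors ⊆ Cp x ∪ Cl x p ∧ (x < p ^ 2 → m.primeFactors ⊆ Cp x) := by
  have hn2 := hb.1
  have hpf : ∀ q ∈ n.primeFactors, q.Prime ∧ q ∣ n ∧ (log x) ^ 2 < q ∧ q ≠ 2 ∧ q ≤ x := by
    intro q hq
    rw [Nat.mem_primeFactors] at hq
    have h1 := bad_prime_large hb hq.1 hq.2.1
    have h2 : (log x) ^ 2 < q := by linarith
    refine ⟨hq.1, hq.2.1, h2, ?_, (Nat.le_of_dvd (by omega) hq.2.1).trans hnx⟩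
    intro h
    rw [h] at h2
    norm_num at h2
    linarith
  have hpass : ∀ ℓ ∈ opr ⌊(log x) ^ 2⌋₊, Passes n ℓ := by
    intro ℓ hℓ
    rw [mem_opr] at hℓ
    apply hb.2.2 ℓ hℓ.1.one_lt
    have h1 : (ℓ : ℝ) ≤ (⌊(log (x : ℝ)) ^ 2⌋₊ : ℝ) := by exact_mod_cast hℓ.2.1
    have h2 := Nat.floor_le (by positivity : 0 ≤ (log (x : ℝ)) ^ 2)
    linarith
  have hne : n.primeFactors.Nonempty := Nat.nonempty_primeFactors.mpr (by omega)
  obtain ⟨q1, hq1, hq1min⟩ := exists_min_image n.primeFactors v2 hne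
  obtain ⟨p, hp, hpmin⟩ := exists_min_image (n.primeFactors.filter (fun q => v2 q = v2 q1)) id
    ⟨q1, mem_filter.mpr ⟨hq1, rfl⟩⟩
  rw [mem_filter] at hp
  obtain ⟨hpp, hpn, hplog, hp2, hpx⟩ := hpf p hp.1
  obtain ⟨m, hm⟩ := hpn
  have hm0 : m ≠ 0 := by intro h; rw [h, mul_zero] at hm; omega
  have hpm : ¬ p ∣ m := by
    intro h
    have h2 : p * p ∣ n := by rw [hm]; exact Nat.mul_dvd_mul_left p h
    exact hpp.one_lt.ne' (Nat.isUnit_iff.mp (hsq p h2))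
  have hmn : m ∣ n := ⟨p, by rw [hm, mul_comm]⟩
  have hcls : ∀ q ∈ m.primeFactors, (v2 q = v2 q1 ∧ q ∈ Cl x p) ∨ q ∈ Cp x := by
    intro q hq
    rw [Nat.mem_primeFactors] at hq
    have hqn : q ∈ n.primeFactors := Nat.mem_primeFactors.mpr ⟨hq.1, hq.2.1.trans hmn, by omega⟩
    obtain ⟨a1, a2, a3, a4, a5⟩ := hpf q hqn
    have hmin := hq1min q hqn
    rcases eq_or_lt_of_le hmin with h | h
    · left
      refine ⟨h.symm, ?_⟩
      rw [mem_Cl]
      refine ⟨⟨a1.pos, a5⟩, a1, a4, fun ℓ hℓ => ?_⟩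
      exact same_symbol (hpass ℓ hℓ) a1 hpp a4 hp2 a2 ⟨m, hm⟩ (by rw [← h, hp.2])
    · right
      rw [mem_Cp]
      refine ⟨⟨a1.pos, a5⟩, a1, a4, fun ℓ hℓ => ?_⟩
      exact symbol_one (hpass ℓ hℓ) a1 hpp a4 hp2 a2 ⟨m, hm⟩ (by rw [hp.2]; exact h)
  refine ⟨p, m, hpp, hplog, hm, hsq.squarefree_of_dvd hmn, ?_, ?_⟩
  · intro q hq
    rw [mem_union]
    rcases hcls q hq with h | h
    · exact Or.inr h.2
    · exact Or.inl h
  · intro hxp q hq
    rcases hcls q hq with h | h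
    · exfalso
      have hq' := Nat.mem_primeFactors.mp hq
      have hqn : q ∈ n.primeFactors :=
        Nat.mem_primeFactors.mpr ⟨hq'.1, hq'.2.1.trans hmn, by omega⟩
      have h1 := hpmin q (mem_filter.mpr ⟨hqn, h.1⟩)
      simp only [id] at h1
      have h2 : q ≤ m := Nat.le_of_dvd (Nat.pos_of_ne_zero hm0) hq'.2.1
      have h3 : p * p ≤ p * m := Nat.mul_le_mul_left p (h1.trans h2)
      rw [sq] at hxp
      omega
    · exact h

/-- the main covering of the set of bad numbers -/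
lemma bad_cover {x n N : ℕ} (hN1 : ∀ n : ℕ, N ≤ n → Bad n → Squarefree n)
    (hN2 : ∀ n : ℕ, N ≤ n → Bad n → ∀ q m : ℕ, q.Prime → n = q * m →
      q < (Nat.gcd (q - 1) (m - 1)) ^ 2 ∧ 2 ≤ m)
    (hb : Bad n) (hNn : N ≤ n) (hnx : n ≤ x) (hlog : (log x) ^ 2 ≤ 2 * (log n) ^ 2)
    (hlog2 : 2 ≤ (log x) ^ 2) :
    (∃ p ∈ Icc 1 (Nat.sqrt x), (p.Prime ∧ (log x) ^ 2 < p) ∧
      ∃ m ∈ smf (Cp x ∪ Cl x p) (x / p), n = p * m) ∨
    (∃ m ∈ smf (Cp x) (Nat.sqrt x), ∃ e ∈ (m - 1).divisors, ∃ t ∈ range e,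
      n = (e * t + 1) * m) := by
  have hsq := hN1 n hNn hb
  obtain ⟨p, m, hp, hplog, hnm, hmsq, hm1, hm2⟩ := bad_struct hb hnx hlog hlog2 hsq
  have hm0 : 1 ≤ m := Nat.pos_of_ne_zero hmsq.ne_zero
  rcases le_or_gt (p ^ 2) x with h | h
  · left
    refine ⟨p, mem_Icc.mpr ⟨hp.pos, Nat.le_sqrt'.mpr h⟩, ⟨hp, hplog⟩, m, ?_, hnm⟩
    rw [smf, mem_filter, mem_Icc]
    refine ⟨⟨hm0, ?_⟩, hmsq, hm1⟩
    rw [Nat.le_div_iff_mul_le hp.pos, mul_comm, ← hnm]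
    exact hnx
  · right
    obtain ⟨g1, g2⟩ := hN2 n hNn hb p m hp hnm
    obtain ⟨e, he⟩ : ∃ e, e = Nat.gcd (p - 1) (m - 1) := ⟨_, rfl⟩
    rw [← he] at g1
    have hmx : m ^ 2 < x := by
      by_contra hc
      push Not at hc
      have h1 : x * x < n * n := by
        have h2 : n * n = p ^ 2 * m ^ 2 := by rw [hnm]; ring
        rw [h2]
        exact Nat.mul_lt_mul_of_lt_of_le h hc (by have := hb.1; omega)
      have h3 : n * n ≤ x * x := Nat.mul_le_mul hnx hnx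
      omega
    have he1 : e ∣ p - 1 := by rw [he]; exact Nat.gcd_dvd_left _ _
    have he2 : e ∣ m - 1 := by rw [he]; exact Nat.gcd_dvd_right _ _
    obtain ⟨t, ht⟩ := he1
    refine ⟨m, ?_, e, Nat.mem_divisors.mpr ⟨he2, by omega⟩, t, ?_, ?_⟩
    · rw [smf, mem_filter, mem_Icc]
      exact ⟨⟨hm0, Nat.le_sqrt'.mpr hmx.le⟩, hmsq, hm2 h⟩
    · rw [mem_range]
      by_contra hc
      push Not at hc
      have h1 : e * e ≤ e * t := Nat.mul_le_mul_left e hc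
      rw [← ht] at h1
      rw [sq] at g1
      omega
    · rw [← ht, Nat.sub_add_cancel hp.one_lt.le]
      exact hnm

open Classical in
/-- The main counting theorem. -/
theorem bad_count (ε : ℝ) (hε : 0 < ε) : ∃ K : ℝ, ∀ x : ℕ, 1 ≤ x →
    (((Icc 1 x).filter Bad).card : ℝ) ≤ K * (x : ℝ) ^ (5 / 6 + ε) := by
  obtain ⟨δ, hδ0, hδ1, hδ2⟩ : ∃ δ : ℝ, 0 < δ ∧ 2 * δ ≤ ε ∧ δ ≤ 1 / 12 :=
    ⟨min (ε / 2) (1 / 12), by positivity, by linarith [min_le_left (ε / 2) (1 / 12 : ℝ)],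
      min_le_right _ _⟩
  obtain ⟨E, hE, hfam⟩ := fam_bound δ hδ0
  obtain ⟨σ, hσ⟩ : ∃ σ : ℝ, σ = 2 / 3 + 2 * δ := ⟨_, rfl⟩
  rw [← hσ] at hfam
  have hσ0 : 0 < σ := by rw [hσ]; positivity
  have hσ1 : σ ≤ 1 := by rw [hσ]; linarith
  obtain ⟨N1, hN1⟩ := bad_squarefree
  obtain ⟨N2, hN2⟩ := bad_gcd
  have hev1 : ∀ᶠ x : ℝ in Filter.atTop, ((max N1 N2 : ℕ) : ℝ) ≤ x ^ (5 / 6 : ℝ) :=
    (tendsto_rpow_atTop (by norm_num)).eventually (Filter.eventually_ge_atTop _)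
  have hev2 : ∀ᶠ x : ℝ in Filter.atTop, 2 ≤ log x :=
    tendsto_log_atTop.eventually (Filter.eventually_ge_atTop _)
  obtain ⟨x0, hx0⟩ := Filter.eventually_atTop.mp (hev1.and hev2)
  obtain ⟨X0, hX0⟩ := exists_nat_ge x0
  refine ⟨(X0 : ℝ) + 1 + 2 * E * (1 + 1 / δ), ?_⟩
  intro x hx
  have hx1 : (1 : ℝ) ≤ x := by exact_mod_cast hx
  have hxpos : (0 : ℝ) < x := by linarith
  have hX0' : (0 : ℝ) ≤ X0 := Nat.cast_nonneg X0
  have hpow1 : (1 : ℝ) ≤ (x : ℝ) ^ (5 / 6 + ε) := one_le_rpow hx1 (by linarith)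
  have hCpos : 0 ≤ 2 * E * (1 + 1 / δ) := by positivity
  rcases lt_or_ge x X0 with hsmall | hlarge
  · have h1 : ((Icc 1 x).filter Bad).card ≤ x := by
      refine (card_filter_le _ _).trans ?_
      rw [Nat.card_Icc]; omega
    have h2 : (((Icc 1 x).filter Bad).card : ℝ) ≤ X0 := by
      exact_mod_cast h1.trans hsmall.le
    calc (((Icc 1 x).filter Bad).card : ℝ) ≤ (X0 + 1 + 2 * E * (1 + 1 / δ)) * 1 := by linarith
      _ ≤ _ := mul_le_mul_of_nonneg_left hpow1 (by positivity)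
  · obtain ⟨c1, c2⟩ := hx0 x (hX0.trans (by exact_mod_cast hlarge))
    have hL4 : 2 ≤ (log (x : ℝ)) ^ 2 := by nlinarith
    -- the cover
    obtain ⟨y0, hy0⟩ : ∃ y0 : ℕ, y0 = ⌊(x : ℝ) ^ (5 / 6 : ℝ)⌋₊ := ⟨_, rfl⟩
    obtain ⟨r, hr⟩ : ∃ r : ℕ, r = Nat.sqrt x := ⟨_, rfl⟩
    have hcover : (Icc 1 x).filter Bad ⊆ Icc 1 y0 ∪
        (((Icc 1 r).filter (fun p : ℕ => p.Prime ∧ (log x) ^ 2 < p)).biUnion
          (fun p : ℕ => (smf (Cp x ∪ Cl x p) (x / p)).image (fun m => p * m)) ∪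
        ((smf (Cp x) r).filter (fun m => 2 ≤ m)).biUnion (fun m => (m - 1).divisors.biUnion
          (fun e => (range e).image (fun t => (e * t + 1) * m)))) := by
      intro n hn
      rw [mem_filter, mem_Icc] at hn
      obtain ⟨⟨hn1, hnx⟩, hb⟩ := hn
      rw [mem_union]
      rcases le_or_gt n y0 with hny | hny
      · left; exact mem_Icc.mpr ⟨hn1, hny⟩
      · right
        have hnr : (x : ℝ) ^ (5 / 6 : ℝ) ≤ n := by
          have h1 : y0 + 1 ≤ n := hny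
          have h2 : ((y0 + 1 : ℕ) : ℝ) ≤ n := by exact_mod_cast h1
          have h3 := Nat.lt_floor_add_one ((x : ℝ) ^ (5 / 6 : ℝ))
          rw [← hy0] at h3
          push_cast at h2
          linarith
        have hlogn : 5 / 6 * log x ≤ log n := by
          have := log_le_log (by positivity) hnr
          rwa [log_rpow hxpos] at this
        have hlog : (log (x : ℝ)) ^ 2 ≤ 2 * (log n) ^ 2 := by
          have h1 := pow_le_pow_left₀ (by positivity : 0 ≤ 5 / 6 * log (x : ℝ)) hlogn 2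
          rw [mul_pow] at h1
          nlinarith [sq_nonneg (log (x : ℝ))]
        have hNn : max N1 N2 ≤ n := by
          have : ((max N1 N2 : ℕ) : ℝ) ≤ n := c1.trans hnr
          exact_mod_cast this
        rcases bad_cover (fun n h => hN1 n ((le_max_left _ _).trans h))
          (fun n h => hN2 n ((le_max_right _ _).trans h)) hb hNn hnx hlog hL4 with h | h
        · obtain ⟨p, hp, hpp, m, hm, hnm⟩ := h
          rw [mem_union]; left
          rw [mem_biUnion]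
          exact ⟨p, mem_filter.mpr ⟨by rw [hr]; exact hp, hpp⟩, mem_image.mpr ⟨m, hm, hnm.symm⟩⟩
        · obtain ⟨m, hm, e, he, t, ht, hnm⟩ := h
          rw [mem_union]; right
          rw [mem_biUnion]
          have hm2 : 2 ≤ m := by
            have h1 := Nat.pos_of_mem_divisors he
            have h2 := Nat.mem_divisors.mp he
            omega
          refine ⟨m, mem_filter.mpr ⟨by rw [hr]; exact hm, hm2⟩, ?_⟩
          rw [mem_biUnion]
          exact ⟨e, he, mem_image.mpr ⟨t, ht, hnm.symm⟩⟩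
    have hcard := card_le_card hcover
    have hr2 : (r : ℝ) ≤ (x : ℝ) ^ (1 / 2 : ℝ) := by
      rw [← sqrt_eq_rpow]
      apply le_sqrt_of_sq_le
      have : r ^ 2 ≤ x := by rw [hr]; exact Nat.sqrt_le' x
      exact_mod_cast this
    have hlogr : log (r : ℝ) ≤ log x := by
      rcases Nat.eq_zero_or_pos r with h | h
      · rw [h]; simp; exact log_nonneg hx1
      · apply log_le_log (by exact_mod_cast h)
        have : r ≤ x := by rw [hr]; exact Nat.sqrt_le_self x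
        exact_mod_cast this
    have hlogx0 : 0 ≤ log (x : ℝ) := log_nonneg hx1
    -- first part
    have hA : ((((Icc 1 r).filter (fun p : ℕ => p.Prime ∧ (log x) ^ 2 < p)).biUnion
          (fun p : ℕ => (smf (Cp x ∪ Cl x p) (x / p)).image (fun m => p * m))).card : ℝ) ≤
        E * (x : ℝ) ^ ((1 + σ) / 2) * (1 + log x) := by
      have e1 : ((((Icc 1 r).filter (fun p : ℕ => p.Prime ∧ (log x) ^ 2 < p)).biUnion
          (fun p : ℕ => (smf (Cp x ∪ Cl x p) (x / p)).image (fun m => p * m))).card : ℝ) ≤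
          ∑ p ∈ (Icc 1 r).filter (fun p : ℕ => p.Prime ∧ (log x) ^ 2 < p),
            ((smf (Cp x ∪ Cl x p) (x / p)).card : ℝ) := by
        have h1 := card_biUnion_le (s := (Icc 1 r).filter (fun p : ℕ => p.Prime ∧ (log x) ^ 2 < p))
          (t := fun p : ℕ => (smf (Cp x ∪ Cl x p) (x / p)).image (fun m => p * m))
        have h2 : ∑ p ∈ (Icc 1 r).filter (fun p : ℕ => p.Prime ∧ (log x) ^ 2 < p),
            ((smf (Cp x ∪ Cl x p) (x / p)).image (fun m => p * m)).card ≤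
            ∑ p ∈ (Icc 1 r).filter (fun p : ℕ => p.Prime ∧ (log x) ^ 2 < p),
            (smf (Cp x ∪ Cl x p) (x / p)).card := sum_le_sum fun p _ => card_image_le
        exact_mod_cast h1.trans h2
      refine e1.trans ?_
      have e2 : ∀ p ∈ (Icc 1 r).filter (fun p : ℕ => p.Prime ∧ (log x) ^ 2 < p),
          ((smf (Cp x ∪ Cl x p) (x / p)).card : ℝ) ≤ E * ((x : ℝ) ^ σ * (p : ℝ) ^ (-σ)) := by
        intro p hp
        rw [mem_filter, mem_Icc] at hp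
        have hp0 : (0 : ℝ) < p := by exact_mod_cast hp.1.1
        have h1 := (hfam x).2 p hp.2.1 hp.2.2 (x / p) ((x : ℝ) / p) Nat.cast_div_le
        refine h1.trans (le_of_eq ?_)
        rw [div_rpow hxpos.le hp0.le, rpow_neg hp0.le]
        ring
      refine (sum_le_sum e2).trans ?_
      have e3 : ∑ p ∈ (Icc 1 r).filter (fun p : ℕ => p.Prime ∧ (log x) ^ 2 < p),
          E * ((x : ℝ) ^ σ * (p : ℝ) ^ (-σ)) ≤ ∑ p ∈ Icc 1 r, E * ((x : ℝ) ^ σ * (p : ℝ) ^ (-σ)) :=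
        sum_le_sum_of_subset_of_nonneg (filter_subset _ _) fun p _ _ => by positivity
      refine e3.trans ?_
      rw [← mul_sum, ← mul_sum]
      have e4 := sum_rpow_le r σ hσ1
      have e5 : (r : ℝ) ^ (1 - σ) * (1 + log r) ≤ (x : ℝ) ^ (1 / 2 * (1 - σ)) * (1 + log x) := by
        have h1 : (r : ℝ) ^ (1 - σ) ≤ ((x : ℝ) ^ (1 / 2 : ℝ)) ^ (1 - σ) :=
          rpow_le_rpow (Nat.cast_nonneg r) hr2 (by linarith)
        rw [← rpow_mul hxpos.le] at h1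
        have h2 : 0 ≤ log (r : ℝ) := log_natCast_nonneg r
        exact mul_le_mul h1 (by linarith) (by linarith) (by positivity)
      have e6 : (x : ℝ) ^ ((1 + σ) / 2) = (x : ℝ) ^ σ * (x : ℝ) ^ (1 / 2 * (1 - σ)) := by
        rw [← rpow_add hxpos]; congr 1; ring
      rw [e6]
      have e7 : E * ((x : ℝ) ^ σ * ∑ p ∈ Icc 1 r, (p : ℝ) ^ (-σ)) ≤
          E * ((x : ℝ) ^ σ * ((x : ℝ) ^ (1 / 2 * (1 - σ)) * (1 + log x))) :=
        mul_le_mul_of_nonneg_left (mul_le_mul_of_nonneg_left (e4.trans e5) (by positivity)) hE.le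
      refine e7.trans (le_of_eq ?_)
      ring
    -- second part
    have hB : ((((smf (Cp x) r).filter (fun m => 2 ≤ m)).biUnion (fun m =>
          (m - 1).divisors.biUnion
          (fun e => (range e).image (fun t => (e * t + 1) * m)))).card : ℝ) ≤
        E * (x : ℝ) ^ ((1 + σ) / 2) * (1 + log x) := by
      have e1 : ((((smf (Cp x) r).filter (fun m => 2 ≤ m)).biUnion (fun m =>
          (m - 1).divisors.biUnion
          (fun e => (range e).image (fun t => (e * t + 1) * m)))).card : ℝ) ≤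
          ∑ m ∈ (smf (Cp x) r).filter (fun m => 2 ≤ m), ((∑ e ∈ (m - 1).divisors, e : ℕ) : ℝ) := by
        have h1 := card_biUnion_le (s := (smf (Cp x) r).filter (fun m => 2 ≤ m))
          (t := fun m => (m - 1).divisors.biUnion
          (fun e => (range e).image (fun t => (e * t + 1) * m)))
        have h2 : ∑ m ∈ (smf (Cp x) r).filter (fun m => 2 ≤ m), ((m - 1).divisors.biUnion
            (fun e => (range e).image (fun t => (e * t + 1) * m))).card ≤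
            ∑ m ∈ (smf (Cp x) r).filter (fun m => 2 ≤ m), ∑ e ∈ (m - 1).divisors, e := by
          apply sum_le_sum
          intro m _
          refine card_biUnion_le.trans (sum_le_sum fun e _ => ?_)
          exact card_image_le.trans (le_of_eq (card_range e))
        exact_mod_cast h1.trans h2
      refine e1.trans ?_
      have e2 : ∀ m ∈ (smf (Cp x) r).filter (fun m => 2 ≤ m),
          ((∑ e ∈ (m - 1).divisors, e : ℕ) : ℝ) ≤ (x : ℝ) ^ (1 / 2 : ℝ) * (1 + log x) := by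
        intro m hm
        rw [mem_filter, smf, mem_filter, mem_Icc] at hm
        have hm2 := hm.2
        have h1 := sum_div_le (m - 1) (by omega)
        have h2 : ((m - 1 : ℕ) : ℝ) ≤ r := by
          have : m - 1 ≤ r := by omega
          exact_mod_cast this
        have h3 : log ((m - 1 : ℕ) : ℝ) ≤ log r :=
          log_le_log (by exact_mod_cast (by omega : 0 < m - 1)) h2
        have h4 : 0 ≤ log ((m - 1 : ℕ) : ℝ) := log_natCast_nonneg _
        refine h1.trans ?_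
        exact mul_le_mul (h2.trans hr2) (by linarith) (by linarith) (by positivity)
      refine (sum_le_sum e2).trans ?_
      rw [sum_const, nsmul_eq_mul]
      have e3 : (((smf (Cp x) r).filter (fun m => 2 ≤ m)).card : ℝ) ≤ E * (x : ℝ) ^ (1 / 2 * σ) := by
        have h1 := (hfam x).1 r ((x : ℝ) ^ (1 / 2 : ℝ)) hr2
        rw [← rpow_mul hxpos.le] at h1
        refine le_trans ?_ h1
        exact_mod_cast card_filter_le _ _
      have e4 : (x : ℝ) ^ ((1 + σ) / 2) = (x : ℝ) ^ (1 / 2 * σ) * (x : ℝ) ^ (1 / 2 : ℝ) := by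
        rw [← rpow_add hxpos]; congr 1; ring
      rw [e4]
      calc _ ≤ (E * (x : ℝ) ^ (1 / 2 * σ)) * ((x : ℝ) ^ (1 / 2 : ℝ) * (1 + log x)) :=
            mul_le_mul_of_nonneg_right e3 (by positivity)
        _ = _ := by ring
    -- total
    have htot : (((Icc 1 x).filter Bad).card : ℝ) ≤ (x : ℝ) ^ (5 / 6 : ℝ) +
        2 * E * ((x : ℝ) ^ ((1 + σ) / 2) * (1 + log x)) := by
      have h1 : (((Icc 1 x).filter Bad).card : ℝ) ≤ y0 +
          (((((Icc 1 r).filter (fun p : ℕ => p.Prime ∧ (log x) ^ 2 < p)).biUnion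
          (fun p : ℕ => (smf (Cp x ∪ Cl x p) (x / p)).image (fun m => p * m))).card : ℝ) +
          ((((smf (Cp x) r).filter (fun m => 2 ≤ m)).biUnion (fun m =>
          (m - 1).divisors.biUnion
          (fun e => (range e).image (fun t => (e * t + 1) * m)))).card : ℝ)) := by
        have h2 := hcard.trans ((card_union_le _ _).trans
          (Nat.add_le_add_left (card_union_le _ _) _))
        rw [Nat.card_Icc, Nat.add_sub_cancel] at h2
        exact_mod_cast h2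
      have h2 : (y0 : ℝ) ≤ (x : ℝ) ^ (5 / 6 : ℝ) := by
        rw [hy0]; exact Nat.floor_le (by positivity)
      linarith
    have h1 : 1 + log (x : ℝ) ≤ (1 + 1 / δ) * (x : ℝ) ^ δ := by
      have h2 := log_le_rpow_div hxpos.le hδ0
      have h3 : (1 : ℝ) ≤ (x : ℝ) ^ δ := one_le_rpow hx1 hδ0.le
      have h4 : (x : ℝ) ^ δ / δ = 1 / δ * (x : ℝ) ^ δ := by ring
      linarith
    have h2 : (x : ℝ) ^ ((1 + σ) / 2) * (1 + log x) ≤ (1 + 1 / δ) * (x : ℝ) ^ (5 / 6 + ε) := by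
      calc (x : ℝ) ^ ((1 + σ) / 2) * (1 + log x) ≤
            (x : ℝ) ^ ((1 + σ) / 2) * ((1 + 1 / δ) * (x : ℝ) ^ δ) :=
            mul_le_mul_of_nonneg_left h1 (by positivity)
        _ = (1 + 1 / δ) * ((x : ℝ) ^ ((1 + σ) / 2) * (x : ℝ) ^ δ) := by ring
        _ = (1 + 1 / δ) * (x : ℝ) ^ ((1 + σ) / 2 + δ) := by rw [← rpow_add hxpos]
        _ ≤ _ := by
            apply mul_le_mul_of_nonneg_left _ (by positivity)
            exact rpow_le_rpow_of_exponent_le hx1 (by rw [hσ]; linarith)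
    have h3 : (x : ℝ) ^ (5 / 6 : ℝ) ≤ (x : ℝ) ^ (5 / 6 + ε) :=
      rpow_le_rpow_of_exponent_le hx1 (by linarith)
    have h4 := mul_le_mul_of_nonneg_left h2 (by positivity : 0 ≤ 2 * E)
    have h5 : 0 ≤ (X0 : ℝ) * (x : ℝ) ^ (5 / 6 + ε) := by positivity
    linarith

end Pool.Agent.H379R2.W
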