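import Pool.Agent.H379R2.W.ClassInt
import Pool.Agent.H379R2.W.Count
import Pool.Agent.Helper112.Arith

set_option autoImplicit false

/-! Counting the bad numbers: the exponent `2/3`. -/

namespace Pool.Agent.H379R2.W

open Finset Real

open Classical in
/-- odd numbers `≤ x` for which all small odd primes have Jacobi symbol one -/
noncomputable def Dx (x : ℕ) : Finset ℕ :=
  (Icc 1 x).filter (fun m => Odd m ∧ ∀ ℓ ∈ opr ⌊(log x) ^ 2⌋₊, jacobiSym (ℓ : ℤ) m = 1)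

lemma mem_Dx {x m : ℕ} : m ∈ Dx x ↔ (1 ≤ m ∧ m ≤ x) ∧ Odd m ∧
    ∀ ℓ ∈ opr ⌊(log x) ^ 2⌋₊, jacobiSym (ℓ : ℤ) m = 1 := by
  rw [Dx, mem_filter, mem_Icc]

lemma Dx_rank (ε : ℝ) (hε : 0 < ε) : ∃ K : ℝ, 0 < K ∧ ∀ x X : ℕ, 1 ≤ X → X ≤ x →
    (((Dx x).filter (fun m => m ≤ X)).card : ℝ) ≤ K * (X : ℝ) ^ (2 / 3 + ε) := by
  obtain ⟨K, hK, hcl⟩ := class_bound_int ε hε
  refine ⟨K, hK, fun x X hX1 hXx => ?_⟩
  apply hcl X hX1 _ (fun _ => 1)
  · intro z hz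
    rw [mem_filter, mem_Dx] at hz
    exact ⟨hz.1.1.1, hz.1.2.1, hz.2⟩
  · intro ℓ _; left; rfl
  · intro z hz ℓ hℓ
    rw [mem_filter, mem_Dx] at hz
    exact hz.1.2.2 ℓ (opr_mono hX1 hXx hℓ)

/-- structure of a bad squarefree number -/
lemma bad_struct2 {x n : ℕ} (hb : Bad n) (hnx : n ≤ x) (hlog : (log x) ^ 2 ≤ 2 * (log n) ^ 2)
    (hlog2 : 2 ≤ (log x) ^ 2) (hsq : Squarefree n) :
    n ∈ Dx x ∨ ∃ p m : ℕ, p.Prime ∧ n = p * m ∧ m ∈ Dx x := by
  have hn2 := hb.1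
  have hpf : ∀ q ∈ n.primeFactors, q.Prime ∧ q ∣ n ∧ (log x) ^ 2 < q ∧ q ≠ 2 ∧ q ≤ x := by
    intro q hq
    rw [Nat.mem_primeFactors] at hq
    have h1 := bad_prime_large hb hq.1 hq.2.1
    have h2 : (log x) ^ 2 < q := by linarith
    refine ⟨hq.1, hq.2.1, h2, ?_, (Nat.le_of_dvd (by omega) hq.2.1).trans hnx⟩
    intro h
    rw [h] at h2
    norm_num at h2
    linarith
  have hpass : ∀ ℓ ∈ opr ⌊(log x) ^ 2⌋₊, Passes n ℓ := by
    intro ℓ hℓ
    rw [mem_opr] at hℓ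
    apply hb.2.2 ℓ hℓ.1.one_lt
    have h1 : (ℓ : ℝ) ≤ (⌊(log (x : ℝ)) ^ 2⌋₊ : ℝ) := by exact_mod_cast hℓ.2.1
    have h2 := Nat.floor_le (by positivity : 0 ≤ (log (x : ℝ)) ^ 2)
    linarith
  have hne : n.primeFactors.Nonempty := Nat.nonempty_primeFactors.mpr (by omega)
  obtain ⟨p, hp, hpmin⟩ := exists_min_image n.primeFactors v2 hne
  obtain ⟨hpp, hpn, hplog, hp2, hpx⟩ := hpf p hp
  obtain ⟨m, hm⟩ := hpn
  have hm0 : m ≠ 0 := by intro h; rw [h, mul_zero] at hm; omega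
  have hmn : m ∣ n := ⟨p, by rw [hm, mul_comm]⟩
  have hmsq : Squarefree m := hsq.squarefree_of_dvd hmn
  have hnodd : Odd n := by
    rw [← Nat.not_even_iff_odd, even_iff_two_dvd]
    intro h
    exact (hpf 2 (Nat.mem_primeFactors.mpr ⟨Nat.prime_two, h, by omega⟩)).2.2.2.1 rfl
  have hmodd : Odd m := Odd.of_dvd_nat hnodd hmn
  obtain ⟨s, hs⟩ : ∃ s, s = (m.primeFactors.filter (fun q => v2 q = v2 p)).card := ⟨_, rfl⟩
  have hJm : ∀ ℓ ∈ opr ⌊(log x) ^ 2⌋₊, jacobiSym (ℓ : ℤ) m = jacobiSym (ℓ : ℤ) p ^ s := by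
    intro ℓ hℓ
    have e1 : ∏ q ∈ m.primeFactors, q = m := Nat.prod_primeFactors_of_squarefree hmsq
    conv_lhs => rw [← e1]
    rw [jacobi_prod _ _ (fun q hq => (Nat.prime_of_mem_primeFactors hq).ne_zero)]
    have e2 : ∀ q ∈ m.primeFactors, jacobiSym (ℓ : ℤ) q =
        if v2 q = v2 p then jacobiSym (ℓ : ℤ) p else 1 := by
      intro q hq
      rw [Nat.mem_primeFactors] at hq
      have hqn : q ∈ n.primeFactors :=
        Nat.mem_primeFactors.mpr ⟨hq.1, hq.2.1.trans hmn, by omega⟩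
      obtain ⟨a1, a2, a3, a4, a5⟩ := hpf q hqn
      have hmin := hpmin q hqn
      split_ifs with h
      · exact same_symbol (hpass ℓ hℓ) a1 hpp a4 hp2 a2 ⟨m, hm⟩ h
      · exact symbol_one (hpass ℓ hℓ) a1 hpp a4 hp2 a2 ⟨m, hm⟩ (by omega)
    rw [prod_congr rfl e2, ← prod_filter, prod_const, hs]
  rcases Nat.even_or_odd s with hev | hod
  · right
    refine ⟨p, m, hpp, hm, ?_⟩
    rw [mem_Dx]
    refine ⟨⟨by omega, (Nat.le_of_dvd (by omega) hmn).trans hnx⟩, hmodd, fun ℓ hℓ => ?_⟩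
    rw [hJm ℓ hℓ]
    rcases symbol_ne hpp hplog hℓ with e | e
    · rw [e]; simp
    · rw [e]; exact hev.neg_one_pow
  · left
    rw [mem_Dx]
    refine ⟨⟨by omega, hnx⟩, hnodd, fun ℓ hℓ => ?_⟩
    have : NeZero p := ⟨hpp.ne_zero⟩
    have : NeZero m := ⟨hm0⟩
    rw [hm, jacobiSym.mul_right, hJm ℓ hℓ]
    rcases symbol_ne hpp hplog hℓ with e | e
    · rw [e]; simp
    · rw [e, hod.neg_one_pow]; norm_num

/-- the main covering of the set of bad numbers -/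
lemma bad_cover2 {x n N : ℕ} (hN1 : ∀ n : ℕ, N ≤ n → Bad n → Squarefree n)
    (hN2 : ∀ n : ℕ, N ≤ n → Bad n → ∀ q m : ℕ, q.Prime → n = q * m →
      q < (Nat.gcd (q - 1) (m - 1)) ^ 2 ∧ 2 ≤ m)
    (hb : Bad n) (hNn : N ≤ n) (hnx : n ≤ x) (hlog : (log x) ^ 2 ≤ 2 * (log n) ^ 2)
    (hlog2 : 2 ≤ (log x) ^ 2) :
    n ∈ Dx x ∨
    (∃ m ∈ Dx x, 2 ≤ m ∧ ∃ e ∈ (m - 1).divisors, ∃ t ∈ range (Nat.sqrt (x / m) + 1),
      (e * t + 1) * m = n) := by
  rcases bad_struct2 hb hnx hlog hlog2 (hN1 n hNn hb) with h | h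
  · exact Or.inl h
  · right
    obtain ⟨p, m, hp, hnm, hm⟩ := h
    obtain ⟨g1, g2⟩ := hN2 n hNn hb p m hp hnm
    obtain ⟨e, he⟩ : ∃ e, e = Nat.gcd (p - 1) (m - 1) := ⟨_, rfl⟩
    rw [← he] at g1
    have he1 : e ∣ p - 1 := by rw [he]; exact Nat.gcd_dvd_left _ _
    have he2 : e ∣ m - 1 := by rw [he]; exact Nat.gcd_dvd_right _ _
    obtain ⟨t, ht⟩ := he1
    have hp1 : e * t + 1 = p := by rw [← ht]; exact Nat.sub_add_cancel hp.one_lt.le
    refine ⟨m, hm, g2, e, Nat.mem_divisors.mpr ⟨he2, by omega⟩, t, ?_, ?_⟩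
    · rw [mem_range, Nat.lt_succ_iff, Nat.le_sqrt]
      have h1 : t < e := by
        by_contra hc
        push Not at hc
        have h1 : e * e ≤ e * t := Nat.mul_le_mul_left e hc
        rw [sq] at g1
        omega
      have h2 : t * t ≤ e * t := Nat.mul_le_mul_right t h1.le
      have h3 : p ≤ x / m := by
        rw [Nat.le_div_iff_mul_le (by omega), ← hnm]
        exact hnx
      omega
    · rw [hp1]; exact hnm.symm

open Classical in
lemma bad_count_top (ε : ℝ) (hε : 0 < ε) : ∃ K : ℝ, 0 < K ∧ ∀ x : ℕ, 1 ≤ x →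
    (((Icc 1 x).filter (fun n => Bad n ∧ (x : ℝ) ^ (3 / 4 : ℝ) < n)).card : ℝ) ≤
      K * (x : ℝ) ^ (2 / 3 + ε) := by
  obtain ⟨δ, hδ0, hδ1⟩ : ∃ δ : ℝ, 0 < δ ∧ 3 * δ ≤ ε := ⟨ε / 3, by positivity, by linarith⟩
  obtain ⟨K, hK, hrank⟩ := Dx_rank δ hδ0
  obtain ⟨C, hC, hdiv⟩ := Helper112.divisor_bound δ hδ0
  obtain ⟨α, hα⟩ : ∃ α : ℝ, α = 2 / 3 + δ := ⟨_, rfl⟩
  obtain ⟨σ, hσ⟩ : ∃ σ : ℝ, σ = 2 / 3 + 2 * δ := ⟨_, rfl⟩
  rw [← hα] at hrank
  have hα0 : 0 < α := by rw [hα]; positivity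
  have hασ : α < σ := by rw [hα, hσ]; linarith
  obtain ⟨R, hR⟩ : ∃ R : ℝ, R = K ^ (σ / α) * ∑' k : ℕ, (k : ℝ) ^ (-(σ / α)) := ⟨_, rfl⟩
  have hR0 : 0 ≤ R := by rw [hR]; positivity
  obtain ⟨N1, hN1⟩ := bad_squarefree
  obtain ⟨N2, hN2⟩ := bad_gcd
  have hev1 : ∀ᶠ x : ℝ in Filter.atTop, ((max N1 N2 : ℕ) : ℝ) ≤ x ^ (3 / 4 : ℝ) :=
    (tendsto_rpow_atTop (by norm_num)).eventually (Filter.eventually_ge_atTop _)
  have hev2 : ∀ᶠ x : ℝ in Filter.atTop, 2 ≤ log x :=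
    tendsto_log_atTop.eventually (Filter.eventually_ge_atTop _)
  obtain ⟨x0, hx0⟩ := Filter.eventually_atTop.mp (hev1.and hev2)
  obtain ⟨X0, hX0⟩ := exists_nat_ge x0
  refine ⟨(X0 : ℝ) + K + 2 * C * R, by positivity, ?_⟩
  intro x hx
  have hx1 : (1 : ℝ) ≤ x := by exact_mod_cast hx
  have hxpos : (0 : ℝ) < x := by linarith
  have hX0' : (0 : ℝ) ≤ X0 := Nat.cast_nonneg X0
  have hpow1 : (1 : ℝ) ≤ (x : ℝ) ^ (2 / 3 + ε) := one_le_rpow hx1 (by linarith)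
  rcases lt_or_ge x X0 with hsmall | hlarge
  · have h1 : ((Icc 1 x).filter (fun n => Bad n ∧ (x : ℝ) ^ (3 / 4 : ℝ) < n)).card ≤ x := by
      refine (card_filter_le _ _).trans ?_
      rw [Nat.card_Icc]; omega
    have h2 : (((Icc 1 x).filter (fun n => Bad n ∧ (x : ℝ) ^ (3 / 4 : ℝ) < n)).card : ℝ) ≤ X0 := by
      exact_mod_cast h1.trans hsmall.le
    calc (((Icc 1 x).filter (fun n => Bad n ∧ (x : ℝ) ^ (3 / 4 : ℝ) < n)).card : ℝ)
        ≤ (X0 + K + 2 * C * R) * 1 := by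
          have : 0 ≤ 2 * C * R := by positivity
          linarith
      _ ≤ _ := mul_le_mul_of_nonneg_left hpow1 (by positivity)
  · obtain ⟨c1, c2⟩ := hx0 x (hX0.trans (by exact_mod_cast hlarge))
    have hL4 : 2 ≤ (log (x : ℝ)) ^ 2 := by nlinarith
    have hcover : (Icc 1 x).filter (fun n => Bad n ∧ (x : ℝ) ^ (3 / 4 : ℝ) < n) ⊆ Dx x ∪
        (((Dx x).filter (fun m => 2 ≤ m)).biUnion (fun m => (m - 1).divisors.biUnion
          (fun e => (range (Nat.sqrt (x / m) + 1)).image (fun t => (e * t + 1) * m)))) := by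
      intro n hn
      rw [mem_filter, mem_Icc] at hn
      obtain ⟨⟨hn1, hnx⟩, hb, hnr⟩ := hn
      have hlogn : 3 / 4 * log x ≤ log n := by
        have := log_le_log (by positivity) hnr.le
        rwa [log_rpow hxpos] at this
      have hlog : (log (x : ℝ)) ^ 2 ≤ 2 * (log n) ^ 2 := by
        have h1 := pow_le_pow_left₀ (by positivity : 0 ≤ 3 / 4 * log (x : ℝ)) hlogn 2
        rw [mul_pow] at h1
        nlinarith [sq_nonneg (log (x : ℝ))]
      have hNn : max N1 N2 ≤ n := by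
        have : ((max N1 N2 : ℕ) : ℝ) ≤ n := c1.trans hnr.le
        exact_mod_cast this
      rw [mem_union]
      rcases bad_cover2 (fun n h => hN1 n ((le_max_left _ _).trans h))
        (fun n h => hN2 n ((le_max_right _ _).trans h)) hb hNn hnx hlog hL4 with h | h
      · exact Or.inl h
      · right
        obtain ⟨m, hm, hm2, e, he, t, ht, hnm⟩ := h
        rw [mem_biUnion]
        refine ⟨m, mem_filter.mpr ⟨hm, hm2⟩, ?_⟩
        rw [mem_biUnion]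
        exact ⟨e, he, mem_image.mpr ⟨t, ht, hnm⟩⟩
    have hcard := card_le_card hcover
    -- first part
    have hA : ((Dx x).card : ℝ) ≤ K * (x : ℝ) ^ α := by
      have h1 := hrank x x hx le_rfl
      have h2 : (Dx x).filter (fun m => m ≤ x) = Dx x := by
        apply filter_true_of_mem
        intro m hm
        exact (mem_Dx.mp hm).1.2
      rwa [h2] at h1
    -- second part
    have hsum : ∑ m ∈ Dx x, (m : ℝ) ^ (-σ) ≤ R := by
      rw [hR]
      apply rank_sum (Dx x) K α σ hK hα0 hασ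
      · intro q hq; exact (mem_Dx.mp hq).1.1
      · intro q hq
        exact hrank x q (mem_Dx.mp hq).1.1 (mem_Dx.mp hq).1.2
    have hB : (((((Dx x).filter (fun m => 2 ≤ m)).biUnion (fun m => (m - 1).divisors.biUnion
          (fun e => (range (Nat.sqrt (x / m) + 1)).image (fun t => (e * t + 1) * m))))).card : ℝ) ≤
        2 * C * (x : ℝ) ^ (σ + δ) * R := by
      have e1 : (((((Dx x).filter (fun m => 2 ≤ m)).biUnion (fun m => (m - 1).divisors.biUnion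
          (fun e => (range (Nat.sqrt (x / m) + 1)).image (fun t => (e * t + 1) * m))))).card : ℝ) ≤
          ∑ m ∈ (Dx x).filter (fun m => 2 ≤ m),
            (((m - 1).divisors.card * (Nat.sqrt (x / m) + 1) : ℕ) : ℝ) := by
        have h1 := card_biUnion_le (s := (Dx x).filter (fun m => 2 ≤ m))
          (t := fun m => (m - 1).divisors.biUnion
          (fun e => (range (Nat.sqrt (x / m) + 1)).image (fun t => (e * t + 1) * m)))
        have h2 : ∑ m ∈ (Dx x).filter (fun m => 2 ≤ m), ((m - 1).divisors.biUnion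
            (fun e => (range (Nat.sqrt (x / m) + 1)).image (fun t => (e * t + 1) * m))).card ≤
            ∑ m ∈ (Dx x).filter (fun m => 2 ≤ m),
              (m - 1).divisors.card * (Nat.sqrt (x / m) + 1) := by
          apply sum_le_sum
          intro m _
          refine card_biUnion_le.trans ?_
          rw [← smul_eq_mul, ← sum_const]
          exact sum_le_sum fun e _ => card_image_le.trans (le_of_eq (card_range _))
        exact_mod_cast h1.trans h2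
      refine e1.trans ?_
      have e2 : ∀ m ∈ (Dx x).filter (fun m => 2 ≤ m),
          (((m - 1).divisors.card * (Nat.sqrt (x / m) + 1) : ℕ) : ℝ) ≤
          2 * C * (x : ℝ) ^ (σ + δ) * (m : ℝ) ^ (-σ) := by
        intro m hm
        rw [mem_filter, mem_Dx] at hm
        obtain ⟨⟨⟨m1, m2⟩, _, _⟩, hm2⟩ := hm
        have hm0 : (0 : ℝ) < m := by exact_mod_cast m1
        have hmx : (m : ℝ) ≤ x := by exact_mod_cast m2
        have hxm : 1 ≤ (x : ℝ) / m := by rw [one_le_div hm0]; exact hmx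
        have d1 : ((m - 1).divisors.card : ℝ) ≤ C * (x : ℝ) ^ δ := by
          refine (hdiv (m - 1) (by omega)).trans ?_
          apply mul_le_mul_of_nonneg_left _ hC.le
          apply rpow_le_rpow (Nat.cast_nonneg _) _ hδ0.le
          have : m - 1 ≤ x := by omega
          exact_mod_cast this
        have d2 : ((Nat.sqrt (x / m) + 1 : ℕ) : ℝ) ≤ 2 * ((x : ℝ) / m) ^ σ := by
          have f1 : ((Nat.sqrt (x / m) : ℕ) : ℝ) ≤ √((x : ℝ) / m) := by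
            apply le_sqrt_of_sq_le
            have f2 : (((Nat.sqrt (x / m)) ^ 2 : ℕ) : ℝ) ≤ ((x / m : ℕ) : ℝ) := by
              exact_mod_cast Nat.sqrt_le' (x / m)
            push_cast at f2
            exact f2.trans Nat.cast_div_le
          have f3 : √((x : ℝ) / m) ≤ ((x : ℝ) / m) ^ σ := by
            rw [sqrt_eq_rpow]
            apply rpow_le_rpow_of_exponent_le hxm
            rw [hσ]; linarith
          have f4 : 1 ≤ ((x : ℝ) / m) ^ σ := one_le_rpow hxm (by linarith)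
          push_cast
          linarith
        push_cast at d2 ⊢
        calc ((m - 1).divisors.card : ℝ) * ((Nat.sqrt (x / m) : ℝ) + 1) ≤
            (C * (x : ℝ) ^ δ) * (2 * ((x : ℝ) / m) ^ σ) :=
              mul_le_mul d1 d2 (by positivity) (by positivity)
          _ = 2 * C * (x : ℝ) ^ (σ + δ) * (m : ℝ) ^ (-σ) := by
              rw [div_rpow hxpos.le hm0.le, rpow_add hxpos, rpow_neg hm0.le]
              ring
      refine (sum_le_sum e2).trans ?_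
      rw [← mul_sum]
      apply mul_le_mul_of_nonneg_left _ (by positivity)
      refine le_trans ?_ hsum
      apply sum_le_sum_of_subset_of_nonneg (filter_subset _ _)
      intro m _ _; positivity
    have h1 : (((Icc 1 x).filter (fun n => Bad n ∧ (x : ℝ) ^ (3 / 4 : ℝ) < n)).card : ℝ) ≤
        K * (x : ℝ) ^ α + 2 * C * (x : ℝ) ^ (σ + δ) * R := by
      have h2 := hcard.trans (card_union_le _ _)
      have h3 : (((Icc 1 x).filter (fun n => Bad n ∧ (x : ℝ) ^ (3 / 4 : ℝ) < n)).card : ℝ) ≤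
        ((Dx x).card : ℝ) + ((((Dx x).filter (fun m => 2 ≤ m)).biUnion (fun m =>
          (m - 1).divisors.biUnion
          (fun e => (range (Nat.sqrt (x / m) + 1)).image
            (fun t => (e * t + 1) * m)))).card : ℝ) := by exact_mod_cast h2
      linarith
    have h2 : (x : ℝ) ^ α ≤ (x : ℝ) ^ (2 / 3 + ε) :=
      rpow_le_rpow_of_exponent_le hx1 (by rw [hα]; linarith)
    have h3 : (x : ℝ) ^ (σ + δ) ≤ (x : ℝ) ^ (2 / 3 + ε) :=
      rpow_le_rpow_of_exponent_le hx1 (by rw [hσ]; linarith)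
    have h4 : K * (x : ℝ) ^ α ≤ K * (x : ℝ) ^ (2 / 3 + ε) := mul_le_mul_of_nonneg_left h2 hK.le
    have h5 : 2 * C * R * (x : ℝ) ^ (σ + δ) ≤ 2 * C * R * (x : ℝ) ^ (2 / 3 + ε) :=
      mul_le_mul_of_nonneg_left h3 (by positivity)
    have h6 : 0 ≤ (X0 : ℝ) * (x : ℝ) ^ (2 / 3 + ε) := by positivity
    linarith

open Classical in
/-- The main counting theorem. -/
theorem bad_count2 (ε : ℝ) (hε : 0 < ε) : ∃ K : ℝ, ∀ x : ℕ, 1 ≤ x →
    (((Icc 1 x).filter Bad).card : ℝ) ≤ K * (x : ℝ) ^ (2 / 3 + ε) := by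
  obtain ⟨K, hK, hKx⟩ := bad_count_top ε hε
  refine ⟨2 * K + 1, fun x hx => ?_⟩
  have hx1 : (1 : ℝ) ≤ x := by exact_mod_cast hx
  have hxpos : (0 : ℝ) < x := by linarith
  obtain ⟨y, hy⟩ : ∃ y : ℕ, y = ⌊(x : ℝ) ^ (3 / 4 : ℝ)⌋₊ := ⟨_, rfl⟩
  have hyle : (y : ℝ) ≤ (x : ℝ) ^ (3 / 4 : ℝ) := by rw [hy]; exact Nat.floor_le (by positivity)
  have hx34 : (x : ℝ) ^ (3 / 4 : ℝ) ≤ x := by
    calc (x : ℝ) ^ (3 / 4 : ℝ) ≤ (x : ℝ) ^ (1 : ℝ) :=
          rpow_le_rpow_of_exponent_le hx1 (by norm_num)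
      _ = x := rpow_one _
  have hyx : (y : ℝ) ≤ x := hyle.trans hx34
  have hy1 : 1 ≤ y := by
    rw [hy]
    apply Nat.le_floor
    rw [Nat.cast_one]
    exact one_le_rpow hx1 (by norm_num)
  have hy1' : (1 : ℝ) ≤ y := by exact_mod_cast hy1
  have hcov : (Icc 1 x).filter Bad ⊆
      (Icc 1 x).filter (fun n => Bad n ∧ (x : ℝ) ^ (3 / 4 : ℝ) < n) ∪
      ((Icc 1 y).filter (fun n => Bad n ∧ (y : ℝ) ^ (3 / 4 : ℝ) < n) ∪
        Icc 1 ⌊(y : ℝ) ^ (3 / 4 : ℝ)⌋₊) := by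
    intro n hn
    rw [mem_filter, mem_Icc] at hn
    obtain ⟨⟨hn1, hnx⟩, hb⟩ := hn
    rw [mem_union, mem_union, mem_filter, mem_filter, mem_Icc, mem_Icc, mem_Icc]
    rcases lt_or_ge ((x : ℝ) ^ (3 / 4 : ℝ)) n with h | h
    · exact Or.inl ⟨⟨hn1, hnx⟩, hb, h⟩
    · right
      have hny : n ≤ y := by rw [hy]; exact Nat.le_floor h
      rcases lt_or_ge ((y : ℝ) ^ (3 / 4 : ℝ)) n with h' | h'
      · exact Or.inl ⟨⟨hn1, hny⟩, hb, h'⟩
      · exact Or.inr ⟨hn1, Nat.le_floor h'⟩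
  have h1 := (card_le_card hcov).trans ((card_union_le _ _).trans
    (Nat.add_le_add_left (card_union_le _ _) _))
  rw [Nat.card_Icc 1 ⌊(y : ℝ) ^ (3 / 4 : ℝ)⌋₊, Nat.add_sub_cancel] at h1
  have h2 : (((Icc 1 x).filter Bad).card : ℝ) ≤
      (((Icc 1 x).filter (fun n => Bad n ∧ (x : ℝ) ^ (3 / 4 : ℝ) < n)).card : ℝ) +
      ((((Icc 1 y).filter (fun n => Bad n ∧ (y : ℝ) ^ (3 / 4 : ℝ) < n)).card : ℝ) +
        (⌊(y : ℝ) ^ (3 / 4 : ℝ)⌋₊ : ℝ)) := by exact_mod_cast h1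
  have h3 := hKx x hx
  have h4 := hKx y hy1
  have h5 : (⌊(y : ℝ) ^ (3 / 4 : ℝ)⌋₊ : ℝ) ≤ (x : ℝ) ^ (2 / 3 + ε) := by
    refine (Nat.floor_le (by positivity)).trans ?_
    calc (y : ℝ) ^ (3 / 4 : ℝ) ≤ ((x : ℝ) ^ (3 / 4 : ℝ)) ^ (3 / 4 : ℝ) :=
          rpow_le_rpow (by linarith) hyle (by norm_num)
      _ = (x : ℝ) ^ (9 / 16 : ℝ) := by rw [← rpow_mul hxpos.le]; norm_num
      _ ≤ _ := rpow_le_rpow_of_exponent_le hx1 (by linarith)
  have h6 : K * (y : ℝ) ^ (2 / 3 + ε) ≤ K * (x : ℝ) ^ (2 / 3 + ε) := by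
    apply mul_le_mul_of_nonneg_left _ hK.le
    exact rpow_le_rpow (by linarith) hyx (by linarith)
  linarith

end Pool.Agent.H379R2.W
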