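import Mathlib

set_option autoImplicit false

/-! Consequences of passing the strong test. -/

namespace Pool.Agent.H379R2.W

open Finset

/-- `n` passes the strong test for the base `b` -/
def Passes (n b : ℕ) : Prop :=
  ∃ j d : ℕ, n - 1 = 2 ^ j * d ∧ Odd d ∧
    ((b : ZMod n) ^ d = 1 ∨ ∃ i : ℕ, i < j ∧ (b : ZMod n) ^ (2 ^ i * d) = -1)

lemma pow_of_passes {n b : ℕ} (h : Passes n b) : (b : ZMod n) ^ (n - 1) = 1 := by
  obtain ⟨j, d, h1, _, h3⟩ := h
  rw [h1]
  rcases h3 with h3 | ⟨i, hi, h3⟩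
  · rw [mul_comm, pow_mul, h3, one_pow]
  · have : 2 ^ j * d = 2 ^ i * d * 2 * 2 ^ (j - i - 1) := by
      have : j = i + 1 + (j - i - 1) := by omega
      conv_lhs => rw [this, pow_add, pow_add]
      ring
    rw [this, pow_mul, pow_mul, h3]
    norm_num

/-- passing modulo a divisor -/
lemma pow_of_passes_dvd {n b D : ℕ} (h : Passes n b) (hD : D ∣ n) :
    (b : ZMod D) ^ (n - 1) = 1 := by
  have h1 := congrArg (ZMod.castHom hD (ZMod D)) (pow_of_passes h)
  rwa [map_pow, map_natCast, map_one] at h1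

lemma passes_dvd {n b D : ℕ} (h : Passes n b) (hD : D ∣ n) :
    ∃ j d : ℕ, n - 1 = 2 ^ j * d ∧ Odd d ∧ ((b : ZMod n) ^ d = 1 ∧ (b : ZMod D) ^ d = 1 ∨
      ∃ i : ℕ, i < j ∧ (b : ZMod n) ^ (2 ^ i * d) = -1 ∧ (b : ZMod D) ^ (2 ^ i * d) = -1) := by
  obtain ⟨j, d, h1, h2, h3⟩ := h
  refine ⟨j, d, h1, h2, ?_⟩
  rcases h3 with h3 | ⟨i, hi, h3⟩
  · left
    refine ⟨h3, ?_⟩
    have := congrArg (ZMod.castHom hD (ZMod D)) h3
    rwa [map_pow, map_natCast, map_one] at this
  · right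
    refine ⟨i, hi, h3, ?_⟩
    have := congrArg (ZMod.castHom hD (ZMod D)) h3
    rwa [map_pow, map_natCast, map_neg, map_one] at this

lemma not_dvd_of_passes {n b q : ℕ} (hn : 2 ≤ n) (hq : q.Prime) (hqn : q ∣ n) (h : Passes n b) :
    ¬ q ∣ b := by
  intro hqb
  have h1 := pow_of_passes_dvd h hqn
  haveI := Fact.mk hq
  have h2 : (b : ZMod q) = 0 := (ZMod.natCast_eq_zero_iff _ _).mpr hqb
  rw [h2, zero_pow (by omega)] at h1
  exact zero_ne_one h1

/-- `v_2(q - 1)` -/
def v2 (q : ℕ) : ℕ := (q - 1).factorization 2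

lemma v2_spec {q : ℕ} (hq : 2 ≤ q) : ∃ t, Odd t ∧ q - 1 = 2 ^ v2 q * t := by
  refine ⟨(q - 1) / 2 ^ v2 q, ?_, ?_⟩
  · have := Nat.not_dvd_ordCompl Nat.prime_two (by omega : q - 1 ≠ 0)
    rw [v2, ← Nat.not_even_iff_odd, even_iff_two_dvd]
    exact this
  · exact (Nat.ordProj_mul_ordCompl_eq_self (q - 1) 2).symm

lemma v2_pos {q : ℕ} (hq : q.Prime) (hq2 : q ≠ 2) : 1 ≤ v2 q := by
  have h1 := hq.two_le
  obtain ⟨t, ht, h⟩ := v2_spec h1
  by_contra h0
  have h0' : v2 q = 0 := by omega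
  rw [h0', pow_zero, one_mul] at h
  have hodd := hq.odd_of_ne_two hq2
  obtain ⟨a, ha⟩ := hodd
  obtain ⟨c, hc⟩ := ht
  omega

/-- the Legendre symbol of a base for which the test is passed: level `i` case -/
lemma legendre_level {q b i d : ℕ} (hq : q.Prime) (hq2 : q ≠ 2) (hd : Odd d)
    (h : (b : ZMod q) ^ (2 ^ i * d) = -1) :
    i + 1 ≤ v2 q ∧ (jacobiSym b q = -1 ↔ i + 1 = v2 q) ∧ (jacobiSym b q = 1 ∨ jacobiSym b q = -1) := by
  haveI := Fact.mk hq
  haveI : Fact (2 < q) := ⟨lt_of_le_of_ne hq.two_le (Ne.symm hq2)⟩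
  have hne : (-1 : ZMod q) ≠ 1 := ZMod.neg_one_ne_one
  have hb0 : (b : ZMod q) ≠ 0 := by
    intro h0
    rw [h0, zero_pow (by have := hd.pos; positivity)] at h
    have : (1 : ZMod q) = 0 := by
      have := congrArg (fun z => -z) h
      simp at this
    exact one_ne_zero this
  have hb0' : ((b : ℤ) : ZMod q) ≠ 0 := by push_cast; exact hb0
  have hleg := legendreSym.eq_one_or_neg_one q hb0'
  have hpow := legendreSym.eq_pow q (b : ℤ)
  have hj : jacobiSym (b : ℤ) q = legendreSym q (b : ℤ) := (jacobiSym.legendreSym.to_jacobiSym q b).symm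
  rw [hj]
  obtain ⟨t, ht, hqt⟩ := v2_spec hq.two_le
  have hv := v2_pos hq hq2
  obtain ⟨w, hw⟩ : ∃ w, v2 q = w + 1 := ⟨v2 q - 1, by omega⟩
  have hhalf : q / 2 = 2 ^ w * t := by
    rw [hw, pow_succ] at hqt
    have : q = 2 * (2 ^ w * t) + 1 := by
      have := hq.two_le
      have e : 2 ^ w * 2 * t = 2 * (2 ^ w * t) := by ring
      omega
    omega
  obtain ⟨ε, hε⟩ : ∃ ε : ℤ, ε = legendreSym q (b : ℤ) := ⟨_, rfl⟩
  rw [← hε] at hleg hpow ⊢
  rw [hhalf] at hpow
  push_cast at hpow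
  have hεd : (ε : ZMod q) ^ d = ε := by
    rcases hleg with h1 | h1
    · rw [h1]; simp
    · rw [h1]; push_cast; rw [hd.neg_one_pow]
  have hεb : (b : ZMod q) ^ (2 ^ w * t * d) = ε := by
    rw [pow_mul, ← hpow, hεd]
  have hεsq : ∀ k : ℕ, 1 ≤ k → (ε : ZMod q) ^ (2 ^ k) = 1 := by
    intro k hk
    obtain ⟨k', rfl⟩ : ∃ k', k = k' + 1 := ⟨k - 1, by omega⟩
    rw [pow_succ, mul_comm, pow_mul]
    rcases hleg with h1 | h1
    · rw [h1]; simp
    · rw [h1]; simp
  have hbit : (b : ZMod q) ^ (2 ^ i * d * t) = -1 := by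
    rw [pow_mul, h, ht.neg_one_pow]
  have hiw : i ≤ w := by
    by_contra hlt
    push Not at hlt
    have e : 2 ^ i * d * t = 2 ^ w * t * d * 2 ^ (i - w) := by
      have : i = w + (i - w) := by omega
      conv_lhs => rw [this, pow_add]
      ring
    rw [e, pow_mul, hεb, hεsq (i - w) (by omega)] at hbit
    exact hne hbit.symm
  refine ⟨by omega, ⟨?_, ?_⟩, hleg⟩
  · intro h1
    by_contra h2
    have hlt : i < w := by omega
    have e : 2 ^ w * t * d = 2 ^ i * d * t * 2 ^ (w - i) := by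
      have : w = i + (w - i) := by omega
      conv_lhs => rw [this, pow_add]
      ring
    rw [e, pow_mul, hbit, h1] at hεb
    have : Even (2 ^ (w - i)) := (Nat.even_pow.mpr ⟨even_two, by omega⟩)
    rw [this.neg_one_pow] at hεb
    push_cast at hεb
    exact hne hεb.symm
  · intro h1
    have hw' : i = w := by omega
    rcases hleg with h2 | h2
    · exfalso
      rw [h2] at hεb
      have e : 2 ^ w * t * d = 2 ^ i * d * t := by rw [hw']; ring
      rw [e, hbit] at hεb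
      push_cast at hεb
      exact hne hεb
    · exact h2

lemma legendre_odd {q b d : ℕ} (hq : q.Prime) (hd : Odd d)
    (h : (b : ZMod q) ^ d = 1) : jacobiSym b q = 1 := by
  haveI := Fact.mk hq
  have hb0 : (b : ZMod q) ≠ 0 := by
    intro h0
    rw [h0, zero_pow (by have := hd.pos; omega)] at h
    exact zero_ne_one h
  have hb0' : ((b : ℤ) : ZMod q) ≠ 0 := by push_cast; exact hb0
  have hj : jacobiSym (b : ℤ) q = legendreSym q (b : ℤ) := (jacobiSym.legendreSym.to_jacobiSym q b).symm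
  rw [hj, legendreSym.eq_one_iff q hb0']
  obtain ⟨c, hc⟩ := hd
  refine ⟨(b : ZMod q) ^ (c + 1), ?_⟩
  rw [← pow_add]
  push_cast
  have : c + 1 + (c + 1) = d + 1 := by omega
  rw [this, pow_succ, h, one_mul]

/-- Two prime divisors with the same `v2`: same symbol. -/
lemma same_symbol {n b q q' : ℕ} (h : Passes n b) (hq : q.Prime) (hq' : q'.Prime) (hq2 : q ≠ 2)
    (hq2' : q' ≠ 2) (hqn : q ∣ n) (hqn' : q' ∣ n) (hv : v2 q = v2 q') :
    jacobiSym b q = jacobiSym b q' := by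
  obtain ⟨j, d, h1, h2, h3⟩ := h
  rcases h3 with h3 | ⟨i, hi, h3⟩
  · have e1 := congrArg (ZMod.castHom hqn (ZMod q)) h3
    rw [map_pow, map_natCast, map_one] at e1
    have e2 := congrArg (ZMod.castHom hqn' (ZMod q')) h3
    rw [map_pow, map_natCast, map_one] at e2
    rw [legendre_odd hq h2 e1, legendre_odd hq' h2 e2]
  · have e1 := congrArg (ZMod.castHom hqn (ZMod q)) h3
    rw [map_pow, map_natCast, map_neg, map_one] at e1
    have e2 := congrArg (ZMod.castHom hqn' (ZMod q')) h3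
    rw [map_pow, map_natCast, map_neg, map_one] at e2
    obtain ⟨_, f2, f3⟩ := legendre_level hq hq2 h2 e1
    obtain ⟨_, g2, g3⟩ := legendre_level hq' hq2' h2 e2
    by_cases hc : i + 1 = v2 q
    · rw [f2.mpr hc, g2.mpr (by omega)]
    · have f4 : jacobiSym b q = 1 := by
        rcases f3 with f3 | f3
        · exact f3
        · exact absurd (f2.mp f3) hc
      have g4 : jacobiSym b q' = 1 := by
        rcases g3 with g3 | g3
        · exact g3
        · exact absurd (g2.mp g3) (by omega)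
      rw [f4, g4]

/-- A prime divisor with larger `v2` than another one: the symbol is one. -/
lemma symbol_one {n b q q' : ℕ} (h : Passes n b) (hq : q.Prime) (hq' : q'.Prime) (hq2 : q ≠ 2)
    (hq2' : q' ≠ 2) (hqn : q ∣ n) (hqn' : q' ∣ n) (hv : v2 q' < v2 q) :
    jacobiSym b q = 1 := by
  obtain ⟨j, d, h1, h2, h3⟩ := h
  rcases h3 with h3 | ⟨i, hi, h3⟩
  · have e1 := congrArg (ZMod.castHom hqn (ZMod q)) h3
    rw [map_pow, map_natCast, map_one] at e1
    exact legendre_odd hq h2 e1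
  · have e1 := congrArg (ZMod.castHom hqn (ZMod q)) h3
    rw [map_pow, map_natCast, map_neg, map_one] at e1
    have e2 := congrArg (ZMod.castHom hqn' (ZMod q')) h3
    rw [map_pow, map_natCast, map_neg, map_one] at e2
    obtain ⟨_, f2, f3⟩ := legendre_level hq hq2 h2 e1
    obtain ⟨g1, _, _⟩ := legendre_level hq' hq2' h2 e2
    rcases f3 with f3 | f3
    · exact f3
    · have := f2.mp f3
      omega

end Pool.Agent.H379R2.W
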